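import Mathlib
import Pool.Agent.Lib.MP_c82530_nt.AG.NF
import Pool.Agent.Lib.MP_c82530_nt.AC.Stm

set_option autoImplicit false

/-!
# Tuples from several number fields: pieces
-/

namespace Pool.Agent.Lib.MP_c82530_nt.AH

open Set Pool.Agent.Lib.MP_c82530_nt Pool.Agent.Lib.MP_c82530_nt.AA
  Pool.Agent.Lib.MP_c82530_nt.AG Module Filter Topology
open Pool.Agent.Lib.MP_c82530_nt.AB (KS)
open NumberField IsDedekindDomain

/-- the exceptional case: almost all values at primes are in a field of finite transcendence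
degree -/
def EXC {ι : Type} (q : ι → ℕ) (f : ι → ℂ) : Prop := ∃ (t : ℕ) (C : ℝ) (A : Set ι),
  (∀ P : Finset ι, (∀ i ∈ P, i ∉ A) → ∑ i ∈ P, (q i : ℝ)⁻¹ ≤ C) ∧ AM.eRk (f '' A) ≤ t

/-- piece FC: `theorem p_fc (hzs : S_zs) : S_fc`, as `four_corners` in AA/Meas.lean with the Cauchy
Schwarz inequality of AA/PCs.lean; the decomposition of an integer `m` composed of primes in
`P₁ ∪ P₂` is `m = m.filter (· ∈ P₁) + m.filter (· ∉ P₁)` (compare AG/P_two.lean). -/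
def S_fc : Prop := ∀ (ι : Type) [DecidableEq ι] (q : ι → ℕ), (∀ i, 2 ≤ q i) →
  ∀ (P₁ P₂ : Finset ι), Disjoint P₁ P₂ →
  ∀ (A : Set (ι →₀ ℕ)) (ε₁ δ : ℝ), 0 ≤ ε₁ → 0 ≤ δ → 3 * ε₁ ≤ δ ^ 4 →
  ∀ (BA BB : (ι →₀ ℕ) → (ι →₀ ℕ) → Set (ι →₀ ℕ))
    (BC : (ι →₀ ℕ) → (ι →₀ ℕ) → (ι →₀ ℕ) → Set (ι →₀ ℕ)),
  (∀ s s', Sm q P₂ (BA s s') ε₁) → (∀ t t', Sm q P₁ (BB t t') ε₁) →
  (∀ s t t', Sm q P₁ (BC s t t') ε₁) →
  (∀ s s' t t' : ι →₀ ℕ, s.support ⊆ P₁ → s'.support ⊆ P₁ → t.support ⊆ P₂ → t'.support ⊆ P₂ →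
    s + t ∈ A → s' + t ∈ A → s + t' ∈ A → s' + t' ∈ A →
      t ∈ BA s s' ∨ s' ∈ BB t t' ∨ s' ∈ BC s t t') →
  Sm q (P₁ ∪ P₂) A δ

/-- piece CPT: compactness, as AB/P_cpt.lean, with the directed set of all finite sets `P` of
primes disjoint from `E` instead of the sets of primes in `(x₀, x]` (an ultrafilter on `Finset ι`
finer than `atTop`); the finite set `E` is added to the set `A`. -/
def S_cpt : Prop := ∀ (ι : Type) [DecidableEq ι] (q : ι → ℕ) (f : ι → ℂ), (∀ i, 2 ≤ q i) →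
  ¬ EXC q f → ∀ (t : ℕ) (C : ℝ) (E : Finset ι), ∃ P : Finset ι,
    Disjoint P E ∧ ∀ s : Set ℂ, AM.eRk s ≤ t → C ≤ EK q f (KS s) P

/-- piece EXS: shrinking the exceptional weight, as AC/P_exs.lean: take a finite set `P₀` outside
`A` whose weight is almost maximal and add it to `A`. -/
def S_exs : Prop := ∀ (ι : Type) (q : ι → ℕ) (f : ι → ℂ), (∀ i, 2 ≤ q i) → EXC q f →
  ∀ ε : ℝ, 0 < ε → ∃ B : Set ι,
    (∀ P : Finset ι, (∀ i ∈ P, i ∉ B) → ∑ i ∈ P, (q i : ℝ)⁻¹ ≤ ε) ∧ AM.eRk (f '' B) ≠ ⊤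

/-- weighted sums over `r`-tuples; the `i`-th entry is an integer over the primes `ι i` -/
noncomputable def WtF {ι : ℕ → Type} (q : ∀ j, ι j → ℕ) (L : ∀ j, ℕ → Finset (ι j →₀ ℕ)) {r : ℕ}
    (D : Set (∀ i : Fin r, ι i →₀ ℕ)) (x : ℕ) : ℝ :=
  ∑ b ∈ Fintype.piFinset (fun i : Fin r => L i x),
    D.indicator (fun b => ∏ i : Fin r, (nm (q i) (b i) : ℝ)⁻¹) b

/-- density zero for tuples -/
def LNF {ι : ℕ → Type} (q : ∀ j, ι j → ℕ) (L : ∀ j, ℕ → Finset (ι j →₀ ℕ)) {r : ℕ}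
    (D : Set (∀ i : Fin r, ι i →₀ ℕ)) : Prop :=
  Tendsto (fun x : ℕ => WtF q L D x / (Real.log x) ^ r) atTop (𝓝 0)

/-- piece IND: the induction step for densities, as AB/P_ind.lean. The total weight of `L j x` is
at most `C_j * log x` for large `x` by `Mt0` with `P = ∅`. -/
def S_ind : Prop := ∀ (ι : ℕ → Type) (q : ∀ j, ι j → ℕ) (L : ∀ j, ℕ → Finset (ι j →₀ ℕ)),
  (∀ j i, 2 ≤ q j i) → (∀ j, IsL (q j) (L j)) → (∀ j, Mt0 (q j) (L j)) →
  ∀ (r : ℕ) (D : Set (∀ i : Fin (r + 1), ι i →₀ ℕ)),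
  (∀ ε : ℝ, 0 < ε → ∃ (D' : Set (∀ i : Fin r, ι i →₀ ℕ)) (x₀ : ℕ), LNF q L D' ∧
    ∀ x, x₀ ≤ x → ∀ b' : (∀ i : Fin r, ι i →₀ ℕ), b' ∉ D' →
      Wt (q r) {b : ι r →₀ ℕ |
        (Fin.snoc (α := fun i : Fin (r + 1) => ι i →₀ ℕ) b' b) ∈ D} (L r x) ≤
          ε * Real.log x) →
  LNF q L D

/-- piece PROD: the weight of a product set -/
def S_prod : Prop := ∀ (ι : ℕ → Type) (q : ∀ j, ι j → ℕ) (L : ∀ j, ℕ → Finset (ι j →₀ ℕ))
  (r : ℕ) (A : ∀ j, Set (ι j →₀ ℕ)) (x : ℕ),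
  WtF q L {b : ∀ i : Fin r, ι i →₀ ℕ | ∀ i : Fin r, b i ∈ A i} x =
    ∏ i : Fin r, Wt (q i) (A i) (L i x)

/-- piece SHF: algebraic independence is stable under shifts by elements of the closure of the
base field. Hint: induction with `AC.S_snoc` (AC/P_snoc.lean), or use the algebra automorphism
`X j ↦ X j + c j` of the polynomial ring over `KL s`. -/
def S_shf : Prop := ∀ (s : Set ℂ) (r : ℕ) (x c : Fin r → ℂ), (∀ j, c j ∈ AM.closure s) →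
  AlgebraicIndependent (KL s) x → AlgebraicIndependent (KL s) (fun j => x j + c j)

/-- the exceptional case for a number field: the logarithms of all generators of all principal
powers of the primes in a set `A` of prime ideals such that the sum of `1 / N(v)` over the other
primes converges are algebraic over a finitely generated field -/
def ExcNF {k : Type} [Field k] [NumberField k] (σ : k →+* ℂ) : Prop :=
  ∃ (A : Set (HeightOneSpectrum (𝓞 k))) (T : Set ℂ), T.Finite ∧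
    Summable (Aᶜ.indicator (fun v : HeightOneSpectrum (𝓞 k) => (Ideal.absNorm v.asIdeal : ℝ)⁻¹)) ∧
    ∀ v ∈ A, ∀ (γ : 𝓞 k) (n : ℕ) (l : ℂ), Ideal.span {γ} = v.asIdeal ^ n →
      Complex.exp l = σ γ → IsAlgebraic (IntermediateField.adjoin ℚ T) l

/-- piece EXN: `theorem p_exn (hlg : S_lg) (htoi : S_toi) : S_exn`, see AC/Exc.lean for the case of
the rational numbers. From right to left: `T` is a basis of `f '' A` together with a basis of the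
space `C` in `S_lg` (with `m = single v n`, `toI m = v.asIdeal ^ n`, `Fv (fn σ h γ) m = n * fn v`).
From left to right: `fn v = (1 / h) * l` with `exp l = σ (γ v)`, `γ v ≠ 0`. -/
def S_exn : Prop := ∀ (k : Type) [Field k] [NumberField k] (σ : k →+* ℂ) (h : ℕ)
  (γ : HeightOneSpectrum (𝓞 k) → 𝓞 k), IsGen h γ → (EXC (qn k) (fn σ h γ) ↔ ExcNF σ)

/-- piece BRR: `theorem p_brr (htoi : S_toi) : S_brr`, translation of the sums over tuples of
ideals; tuples with a zero entry contribute `0`. Compare `S_br` and AG/P_br.lean. -/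
def S_brr : Prop := ∀ (k : ℕ → Type) [∀ j, Field (k j)] [∀ j, NumberField (k j)]
  (L : ∀ j, ℕ → Finset (HeightOneSpectrum (𝓞 (k j)) →₀ ℕ)), (∀ j, IsL (qn (k j)) (L j)) →
  ∀ (r : ℕ) (D : Set (∀ i : Fin r, Ideal (𝓞 (k i)))) (x : ℕ),
    ∑ᶠ I ∈ {I : ∀ i : Fin r, Ideal (𝓞 (k i)) | I ∈ D ∧ ∀ i : Fin r, Ideal.absNorm (I i) ≤ x},
      ∏ i : Fin r, (Ideal.absNorm (I i) : ℝ)⁻¹ =
    WtF (fun j => qn (k j)) L {b : ∀ i : Fin r, HeightOneSpectrum (𝓞 (k i)) →₀ ℕ |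
      (fun i => toI (b i)) ∈ D} x

end Pool.Agent.Lib.MP_c82530_nt.AH
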