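import Mathlib
import Pool.Agent.Lib.MP_c82530_nt.AH.Stm
import Pool.Agent.Lib.MP_c82530_nt.AG.Fin
import Pool.Agent.Lib.MP_c82530_nt.AC.Step

set_option autoImplicit false

namespace Pool.Agent.Lib.MP_c82530_nt.AH

open Set Pool.Agent.Lib.MP_c82530_nt Pool.Agent.Lib.MP_c82530_nt.AA
  Pool.Agent.Lib.MP_c82530_nt.AG Module Filter Topology
open Pool.Agent.Lib.MP_c82530_nt.AB (KS InL mem_KS)
open Pool.Agent.Lib.MP_c82530_nt.AC (FreeUpR exists_leastR exchangeR FreeUpR.mono)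

variable {ι : Type} {q : ι → ℕ} {f : ι → ℂ}

/-- the bad set over `L` -/
def BadB (f : ι → ℂ) (L : Set ℂ) (r : ℕ) (W : Submodule ℚ ℂ) (g : ℂ) : Set (ι →₀ ℕ) :=
  {b | ∃ S, Good S ∧ W ≤ S ∧ finrank ℚ S ≤ finrank ℚ W + r ∧ InL L S (g + Fv f b)}

/-- bad with respect to the least space over `W` attached to `y` -/
def BadLB (f : ι → ℂ) (L : Set ℂ) (r : ℕ) (W : Submodule ℚ ℂ) (M : ℕ) (y h : ℂ) :
    Set (ι →₀ ℕ) :=
  {b | ∃ V, Good V ∧ W ≤ V ∧ finrank ℚ V ≤ M ∧ InL L V y ∧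
    (∀ S, Good S → W ≤ S → finrank ℚ S ≤ M → InL L S y → V ≤ S) ∧ b ∈ BadB f L r V h}

lemma BadLB_smR (hq : ∀ i, 2 ≤ q i) {L : Set ℂ} {V : Submodule ℚ ℂ} {P : Finset ι} {r M : ℕ}
    {ε : ℝ} (hε : 0 ≤ ε) {W : Submodule ℚ ℂ} (hVW : V ≤ W)
    (h : ∀ W : Submodule ℚ ℂ, Good W → V ≤ W → finrank ℚ W ≤ M → ∀ g : ℂ,
      Sm q P (BadB f L r W g) ε) (y g : ℂ) : Sm q P (BadLB f L r W M y g) ε := by
  by_cases hex : ∃ V, Good V ∧ W ≤ V ∧ finrank ℚ V ≤ M ∧ InL L V y ∧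
    (∀ S, Good S → W ≤ S → finrank ℚ S ≤ M → InL L S y → V ≤ S)
  · obtain ⟨V, hV1, hV2, hV3, hV4, hV5⟩ := hex
    apply (h V hV1 (hVW.trans hV2) hV3 g).mono hq _ le_rfl
    rintro b ⟨V', hV1', hV2', hV3', hV4', hV5', hb⟩
    have : V' = V := le_antisymm (hV5' V hV1 hV2 hV3 hV4) (hV5 V' hV1' hV2' hV3' hV4')
    rwa [this] at hb
  · apply sm_empty hq _ hε
    rintro b ⟨V, hV1, hV2, hV3, hV4, hV5, _⟩
    exact hex ⟨V, hV1, hV2, hV3, hV4, hV5⟩

lemma BadB_leastR (hinf : AC.S_inf) {L : Set ℂ} {V : Submodule ℚ ℂ} {m : ℕ}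
    (hF : FreeUpR L V (2 * m)) {r : ℕ} {W : Submodule ℚ ℂ} (hVW : V ≤ W) {g : ℂ} {b : ι →₀ ℕ}
    (hm : finrank ℚ W + r ≤ m) (hb : b ∈ BadB f L r W g) :
    ∃ T, Good T ∧ W ≤ T ∧ finrank ℚ T ≤ finrank ℚ W + r ∧ InL L T (g + Fv f b) ∧
      ∀ S, Good S → W ≤ S → finrank ℚ S ≤ m → InL L S (g + Fv f b) → T ≤ S := by
  obtain ⟨S, h1, h2, h3, h4⟩ := hb
  obtain ⟨T, hT1, hT2, hT3, hT4, hT5⟩ :=
    exists_leastR hinf hF hVW ⟨S, h1, h2, h3.trans hm, h4⟩
  have := h1.1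
  exact ⟨T, hT1, hT2, (Submodule.finrank_mono (hT5 S h1 h2 (h3.trans hm) h4)).trans h3, hT4, hT5⟩

/-- the uniform smallness statement over `L` -/
def QC (q : ι → ℕ) (f : ι → ℂ) (t r : ℕ) : Prop := ∀ (M : ℕ) (ε : ℝ), 0 < ε → ∀ E : Finset ι,
  ∃ (m : ℕ) (P : Finset ι), Disjoint P E ∧ ∀ L : Set ℂ, AM.eRk L ≤ t → ∀ V, FreeUpR L V m →
    ∀ W : Submodule ℚ ℂ, Good W → V ≤ W → finrank ℚ W ≤ M → ∀ g : ℂ,
      Sm q P (BadB f L r W g) ε

theorem QC_succ [DecidableEq ι] (hq : ∀ i, 2 ≤ q i) (hinf : AC.S_inf) (hral : AC.S_ral)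
    (hfc : S_fc) {t r : ℕ} (hQ : QC q f t r) : QC q f t (r + 1) := by
  intro M ε hε E
  obtain ⟨M1, hM1⟩ : ∃ M1, M1 = 2 * (M + (r + 1)) := ⟨_, rfl⟩
  have hε1 : 0 < ε ^ 4 / 3 := by positivity
  obtain ⟨m1, P1, hP1, hb1⟩ := hQ M1 (ε ^ 4 / 3) hε1 E
  obtain ⟨m2, P2, hP2, hb2⟩ := hQ M1 (ε ^ 4 / 3) hε1 (E ∪ P1)
  have hd : Disjoint P1 P2 := (Finset.disjoint_of_subset_right Finset.subset_union_right hP2).symm
  refine ⟨max (2 * M1) (max m1 m2), P1 ∪ P2, ?_, fun L hL V hF W hW hVW hWM g => ?_⟩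
  · rw [Finset.disjoint_union_left]
    exact ⟨hP1, Finset.disjoint_of_subset_right Finset.subset_union_left hP2⟩
  · have hF0 : FreeUpR L V (2 * M1) := hF.mono (le_max_left _ _)
    have hF1 : FreeUpR L V m1 := hF.mono ((le_max_left _ _).trans (le_max_right _ _))
    have hF2 : FreeUpR L V m2 := hF.mono ((le_max_right _ _).trans (le_max_right _ _))
    have hb1' := hb1 L hL V hF1
    have hb2' := hb2 L hL V hF2
    have hm : finrank ℚ W + (r + 1) ≤ M1 := by omega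
    refine hfc ι q hq P1 P2 hd _ (ε ^ 4 / 3) ε hε1.le hε.le (by linarith)
      (fun s s' => BadLB f L r W M1 (Fv f s - Fv f s') (g + Fv f s))
      (fun t t' => BadLB f L r W M1 (Fv f t - Fv f t') (g + Fv f t))
      (fun s t t' => BadLB f L r W M1 (g + Fv f (s + t)) (g + Fv f t'))
      (fun s s' => BadLB_smR hq hε1.le hVW hb2' _ _)
      (fun s s' => BadLB_smR hq hε1.le hVW hb1' _ _)
      (fun s t t' => BadLB_smR hq hε1.le hVW hb1' _ _) ?_
    intro s s' t t' hs hs' ht ht' c1 c4 _ c2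
    obtain ⟨T1, a1, a2, a3, a4, a5⟩ := BadB_leastR hinf hF0 hVW hm c1
    obtain ⟨T4, d1, d2, d3, d4, d5⟩ := BadB_leastR hinf hF0 hVW hm c4
    obtain ⟨T2, e1, e2, e3, e4, e5⟩ := BadB_leastR hinf hF0 hVW hm c2
    by_cases h14 : T1 = T4
    · by_cases h42 : T4 = T2
      · right; right
        refine ⟨T1, a1, a2, ?_, a4, a5, T1, a1, le_rfl, by omega, ?_⟩
        · omega
        · rw [h14, h42]
          rw [fv_add s' t'] at e4
          have : g + Fv f t' + Fv f s' = g + (Fv f s' + Fv f t') := by ring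
          rw [this]; exact e4
      · right; left
        obtain ⟨V, b1, b2, b3, b4, b5, S, b6, b7, b8, b9⟩ :=
          exchangeR hinf hral hM1 hF0 hVW hWM d1 e1 d2 e2 d4 e4 d3 e3 h42
        have hz : g + Fv f (s' + t) - (g + Fv f (s' + t')) = Fv f t - Fv f t' := by
          rw [fv_add, fv_add]; ring
        rw [hz] at b4 b5
        refine ⟨V, b1, b2, b3, b4, b5, S, b6, b7, b8, ?_⟩
        rw [fv_add] at b9
        have : g + Fv f t + Fv f s' = g + (Fv f s' + Fv f t) := by ring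
        rw [this]; exact b9
    · left
      obtain ⟨V, b1, b2, b3, b4, b5, S, b6, b7, b8, b9⟩ :=
        exchangeR hinf hral hM1 hF0 hVW hWM a1 d1 a2 d2 a4 d4 a3 d3 h14
      have hz : g + Fv f (s + t) - (g + Fv f (s' + t)) = Fv f s - Fv f s' := by
        rw [fv_add, fv_add]; ring
      rw [hz] at b4 b5
      refine ⟨V, b1, b2, b3, b4, b5, S, b6, b7, b8, ?_⟩
      rw [fv_add] at b9
      have : g + Fv f s + Fv f t = g + (Fv f s + Fv f t) := by ring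
      rw [this]; exact b9

theorem QC_zero [DecidableEq ι] (hq : ∀ i, 2 ≤ q i) (hlos : S_los) (hcpt : S_cpt)
    (hno : ¬ EXC q f) (t : ℕ) : QC q f t 0 := by
  obtain ⟨C, hC, h⟩ := hlos
  intro M ε hε E
  obtain ⟨P, hP, hE⟩ := hcpt ι q f hq hno (M + t) ((C / ε) ^ 2) E
  refine ⟨0, P, hP, fun L hL _ _ W hW _ hM g => ?_⟩
  have fW := hW.1
  have hrk : AM.eRk (expSet W ∪ L) ≤ ((M + t : ℕ) : ℕ∞) := by
    refine (AM.eRk_union_le_eRk_add_eRk _ _).trans ?_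
    rw [eRk_expSet hW.2]
    push_cast
    exact add_le_add (by exact_mod_cast hM) hL
  have hE1 : (C / ε) ^ 2 ≤ EK q f (KS (expSet W ∪ L)) P := hE _ hrk
  have hpos : 0 < (C / ε) ^ 2 := by positivity
  refine (h ι q f hq P (KS (expSet W ∪ L)) g (hpos.trans_le hE1)).mono hq ?_ ?_
  · rintro b ⟨S, h1, h2, h3, h4⟩
    have := h1.1
    have h5 : W = S := Submodule.eq_of_le_of_finrank_le h2 h3
    change g + Fv f b ∈ KS (expSet W ∪ L)
    rw [mem_KS, h5]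
    exact h4
  · rw [div_le_iff₀ (Real.sqrt_pos.mpr (hpos.trans_le hE1))]
    have h1 : C / ε ≤ √(EK q f (KS (expSet W ∪ L)) P) := Real.le_sqrt_of_sq_le hE1
    calc C = ε * (C / ε) := by field_simp
      _ ≤ ε * √(EK q f (KS (expSet W ∪ L)) P) := mul_le_mul_of_nonneg_left h1 hε.le

theorem QC_all [DecidableEq ι] (hq : ∀ i, 2 ≤ q i) (hinf : AC.S_inf) (hral : AC.S_ral)
    (hlos : S_los) (hfc : S_fc) (hcpt : S_cpt) (hno : ¬ EXC q f) (t r : ℕ) : QC q f t r := by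
  induction r with
  | zero => exact QC_zero hq hlos hcpt hno t
  | succ r ih => exact QC_succ hq hinf hral hfc ih

/-! ### tuples -/

section Tuples

variable {κ : ℕ → Type} {Q : ∀ j, κ j → ℕ} {F : ∀ j, κ j → ℂ} {L : ∀ j, ℕ → Finset (κ j →₀ ℕ)}

/-- the exceptional set of tuples -/
def DC (F : ∀ j, κ j → ℂ) (n : ℕ) (L₀ : Set ℂ) (r : ℕ) : Set (∀ i : Fin r, κ i →₀ ℕ) :=
  {b | ∃ S, Good S ∧ finrank ℚ S ≤ n ∧
    ¬ AlgebraicIndependent (KL (expSet S ∪ L₀)) (fun i : Fin r => Fv (F i) (b i))}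

lemma DC_zero (n : ℕ) (L₀ : Set ℂ) : DC F n L₀ 0 = ∅ := by
  rw [Set.eq_empty_iff_forall_notMem]
  rintro b ⟨S, _, _, hAI⟩
  apply hAI
  rw [algebraicIndependent_empty_type_iff]
  exact FaithfulSMul.algebraMap_injective _ _

/-- **the tuple theorem** over `L₀` -/
theorem tuplesC (hinf : AC.S_inf) (hral : AC.S_ral) (hlos : S_los) (hfc : S_fc)
    (hmta : S_mta) (hcpt : S_cpt) (hsnoc : AC.S_snoc) (hfree : AC.S_free) (hind : S_ind)
    (hq : ∀ j i, 2 ≤ Q j i) (hL : ∀ j, IsL (Q j) (L j)) (hMt : ∀ j, Mt0 (Q j) (L j))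
    (hno : ∀ j, ¬ EXC (Q j) (F j))
    {L₀ : Set ℂ} (hL₀ : L₀.Finite) {V : Submodule ℚ ℂ} (hV : Good V)
    (hcore : ∀ W : Submodule ℚ ℂ, FiniteDimensional ℚ W → (∀ w ∈ W, IsAlgebraic ℚ w) → V ≤ W →
      dl L₀ W = dl L₀ V) :
    ∀ (r n : ℕ), LNF Q L (DC F n L₀ r) := by
  classical
  intro r
  induction r with
  | zero =>
    intro n
    rw [DC_zero]
    unfold LNF WtF
    simp
  | succ r ih =>
    intro n
    apply hind κ Q L hq hL hMt
    intro ε hε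
    obtain ⟨C, hC, hM⟩ := hMt r
    set t : ℕ := (AM.eRk L₀).toNat + r with ht
    obtain ⟨m, P, -, hb⟩ := QC_all (f := F r) (hq r) hinf hral hlos hfc hcpt (hno r) t n
      (finrank ℚ V) (ε / C) (by positivity) ∅
    obtain ⟨x₀, hx₀⟩ := hM P
    refine ⟨DC F (max n m) L₀ r, x₀, ih _, fun X hX b' hb' => ?_⟩
    set x : Fin r → ℂ := fun i => Fv (F i) (b' i) with hx
    have hAI : ∀ S, Good S → finrank ℚ S ≤ max n m →
        AlgebraicIndependent (KL (expSet S ∪ L₀)) x := by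
      intro S hS hd
      by_contra hcon
      exact hb' ⟨S, hS, hd, hcon⟩
    have hF : FreeUpR (L₀ ∪ range x) V m := hfree L₀ hL₀ V hV hcore m r x
      (fun S hS hd => hAI S hS (hd.trans (le_max_right _ _)))
    have hrk : AM.eRk (L₀ ∪ range x) ≤ (t : ℕ∞) := by
      refine (AM.eRk_union_le_eRk_add_eRk _ _).trans ?_
      rw [ht]
      push_cast
      rw [coe_t hL₀]
      gcongr
      refine (AM.eRk_le_encard _).trans ?_
      rw [← image_univ]
      refine (encard_image_le _ _).trans ?_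
      simp
    have hSm := hb (L₀ ∪ range x) hrk V hF V hV le_rfl le_rfl
    have hZ := zp_pos (hq r) P
    have h1 := hmta (κ r) (Q r) (L r) (hq r) (hL r) P (BadB (F r) (L₀ ∪ range x) n V 0)
      (ε / C) (by positivity) (fun t => by
        refine (hSm (Fv (F r) t)).mono (hq r) ?_ le_rfl
        rintro b ⟨S, h1, h2, h3, h4⟩
        refine ⟨S, h1, h2, h3, ?_⟩
        rw [fv_add] at h4
        have e : Fv (F r) t + Fv (F r) b = 0 + (Fv (F r) b + Fv (F r) t) := by ring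
        rw [e]; exact h4) X
    have h2 := hx₀ X hX
    have h3 : Wt (Q r) (BadB (F r) (L₀ ∪ range x) n V 0) (L r X) ≤ ε * Real.log X := by
      refine h1.trans ?_
      calc ε / C * ZP (Q r) P * Wt (Q r) {m | Disjoint m.support P} (L r X)
          ≤ ε / C * ZP (Q r) P * (C * Real.log X / ZP (Q r) P) :=
            mul_le_mul_of_nonneg_left h2 (by positivity)
        _ = ε * Real.log X := by field_simp
    refine le_trans (wt_mono ?_) h3
    rintro b _ ⟨S, hS, hd, hnot⟩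
    have e2 : (fun i : Fin (r + 1) =>
        Fv (F i) ((Fin.snoc (α := fun i : Fin (r + 1) => κ i →₀ ℕ) b' b) i)) =
        (Fin.snoc x (Fv (F r) b) : Fin (r + 1) → ℂ) := by
      funext i
      refine Fin.lastCases ?_ (fun j => ?_) i
      · simp
      · simp [hx]
    rw [e2, hsnoc] at hnot
    have h3 : Fv (F r) b ∈ AM.closure (expSet S ∪ L₀ ∪ range x) := by
      by_contra h4
      exact hnot ⟨hAI S hS (hd.trans (le_max_left _ _)), h4⟩
    have fS := hS.1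
    have fV := hV.1
    refine ⟨S ⊔ V, hS.sup hV, le_sup_right, ?_, ?_⟩
    · have := Submodule.finrank_add_le_finrank_add_finrank S V
      omega
    · rw [zero_add]
      change Fv (F r) b ∈ AM.closure (expSet (S ⊔ V) ∪ (L₀ ∪ range x))
      rw [← union_assoc]
      refine AM.closure_subset_closure ?_ h3
      exact union_subset_union_left _ (union_subset_union_left _ (image_mono
        (show (S : Set ℂ) ⊆ (S ⊔ V : Submodule ℚ ℂ) from
          fun z hz => (le_sup_left : S ≤ S ⊔ V) hz)))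

end Tuples

end Pool.Agent.Lib.MP_c82530_nt.AH
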