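import Mathlib
import Pool.Agent.Lib.MP_c82530_nt.AH.Step
import Pool.Agent.Lib.MP_c82530_nt.AC.Fin

set_option autoImplicit false

namespace Pool.Agent.Lib.MP_c82530_nt.AH

open Set Pool.Agent.Lib.MP_c82530_nt Pool.Agent.Lib.MP_c82530_nt.AA
  Pool.Agent.Lib.MP_c82530_nt.AG Module Filter Topology
open Pool.Agent.Lib.MP_c82530_nt.AB (KS InL mem_KS AIx good_span')
open NumberField IsDedekindDomain

/-- weighted sums over the tuples of ideals in `D` of norms at most `x` -/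
noncomputable def idsF (k : ℕ → Type) [∀ j, Field (k j)] [∀ j, NumberField (k j)] {r : ℕ}
    (D : Set (∀ i : Fin r, Ideal (𝓞 (k i)))) (x : ℕ) : ℝ :=
  ∑ᶠ I ∈ {I : ∀ i : Fin r, Ideal (𝓞 (k i)) | I ∈ D ∧ ∀ i : Fin r, Ideal.absNorm (I i) ≤ x},
    ∏ i : Fin r, (Ideal.absNorm (I i) : ℝ)⁻¹

lemma fd_closure {C : Submodule ℚ ℂ} (hC : FiniteDimensional ℚ C) :
    ∃ T : Set ℂ, T.Finite ∧ ∀ c ∈ C, c ∈ AM.closure T := by
  obtain ⟨T, hT⟩ := (Submodule.fg_iff_finiteDimensional C).mpr hC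
  refine ⟨T, T.finite_toSet, fun c hc => ?_⟩
  have h1 : Submodule.span ℚ (T : Set ℂ) ≤ KS (T : Set ℂ) := by
    rw [Submodule.span_le]
    intro z hz
    exact mem_KS.mpr (AM.subset_closure (T : Set ℂ) (subset_univ _) hz)
  rw [← hT] at hc
  exact mem_KS.mp (h1 hc)

lemma fv_closure {ι : Type} {f : ι → ℂ} {B : Set ι} {m : ι →₀ ℕ} (h : ∀ i ∈ m.support, i ∈ B) :
    Fv f m ∈ AM.closure (f '' B) := by
  rw [← mem_KS]
  apply fv_mem
  intro i hi
  exact mem_KS.mpr (AM.subset_closure (f '' B) (subset_univ _) ⟨i, h i hi, rfl⟩)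

lemma add_mem_cl' {s : Set ℂ} {y z : ℂ} (h1 : y ∈ AM.closure s) (h2 : z ∈ AM.closure s) :
    y + z ∈ AM.closure s := by
  rw [← mem_KS] at *
  exact Submodule.add_mem _ h1 h2

lemma wtF_mono {κ : ℕ → Type} {Q : ∀ j, κ j → ℕ} {L : ∀ j, ℕ → Finset (κ j →₀ ℕ)} {r : ℕ}
    {D D' : Set (∀ i : Fin r, κ i →₀ ℕ)} (h : ∀ b ∈ D, b ∈ D') (x : ℕ) :
    WtF Q L D x ≤ WtF Q L D' x := by
  unfold WtF
  apply Finset.sum_le_sum
  intro b _
  apply Set.indicator_le_indicator_of_subset (fun b hb => h b hb)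
  intro b
  apply Finset.prod_nonneg
  intro i _; positivity

lemma wtF_nonneg {κ : ℕ → Type} {Q : ∀ j, κ j → ℕ} {L : ∀ j, ℕ → Finset (κ j →₀ ℕ)} {r : ℕ}
    (D : Set (∀ i : Fin r, κ i →₀ ℕ)) (x : ℕ) : 0 ≤ WtF Q L D x := by
  unfold WtF
  apply Finset.sum_nonneg
  intro b _
  apply Set.indicator_nonneg
  intro b _
  apply Finset.prod_nonneg
  intro i _; positivity

lemma LNF.mono {κ : ℕ → Type} {Q : ∀ j, κ j → ℕ} {L : ∀ j, ℕ → Finset (κ j →₀ ℕ)} {r : ℕ}
    {D D' : Set (∀ i : Fin r, κ i →₀ ℕ)} (hD' : LNF Q L D') (h : ∀ b ∈ D, b ∈ D') :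
    LNF Q L D := by
  refine squeeze_zero (fun x => ?_) (fun x => ?_) hD'
  · exact div_nonneg (wtF_nonneg _ _) (pow_nonneg (Real.log_natCast_nonneg x) _)
  · exact div_le_div_of_nonneg_right (wtF_mono h x) (pow_nonneg (Real.log_natCast_nonneg x) _)

/-- the first part: no exceptional field -/
theorem main1 (hinf : AC.S_inf) (hral : AC.S_ral) (hlos : S_los) (hfc : S_fc)
    (hmta : S_mta) (hcpt : S_cpt) (hsnoc : AC.S_snoc) (hfree : AC.S_free) (hind : S_ind)
    (hmon : AC.S_mon) (hcong : AC.S_cong) (hfge : AC.S_fge) (hshf : S_shf) (hexn : S_exn)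
    (hbrr : S_brr) (hcnt : S_cnt) (htoi : S_toi) (hisl : S_isl) (hcnz : S_cnz)
    (hgen : S_gen) (hlg : S_lg)
    (k : ℕ → Type) [∀ j, Field (k j)] [∀ j, NumberField (k j)] (σ : ∀ j, k j →+* ℂ)
    (hno : ∀ j, ¬ ExcNF (σ j)) (E : IntermediateField ℚ ℂ) (hE : E.FG) (n r : ℕ) :
    Tendsto (fun x : ℕ => idsF k {I : ∀ j : Fin r, Ideal (𝓞 (k j)) |
      ∃ (β : ∀ j : Fin r, 𝓞 (k j)) (l : Fin r → ℂ) (α : Fin n → ℂ),
        (∀ j : Fin r, Ideal.span {β j} = I j ∧ Complex.exp (l j) = σ j (β j)) ∧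
        (∀ i, IsAlgebraic ℚ (α i)) ∧
        ¬ AlgebraicIndependent (KL ((E : Set ℂ) ∪ range fun i => Complex.exp (α i))) l} x /
      (Real.log x) ^ r) atTop (𝓝 0) := by
  classical
  choose L hL using fun j => hisl (k j)
  choose κ hκ hlim0 using fun j => hcnz (k j) (L j) (hL j)
  have hq : ∀ j v, 2 ≤ qn (k j) v := fun j => (htoi (k j)).1
  have hMt : ∀ j, Mt0 (qn (k j)) (L j) := fun j =>
    (hcnt _ (qn (k j)) (L j) (hq j) (hL j) (κ j) (hκ j) (hlim0 j)).1
  choose h γ hγ using fun j => hgen (k j)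
  choose Ck hCk hlgk using fun j => hlg (k j) (σ j) (h j) (γ j) (hγ j)
  set F : ∀ j, HeightOneSpectrum (𝓞 (k j)) → ℂ := fun j => fn (σ j) (h j) (γ j) with hF
  have hno' : ∀ j, ¬ EXC (qn (k j)) (F j) := fun j hj =>
    hno j ((hexn (k j) (σ j) (h j) (γ j) (hγ j)).mp hj)
  obtain ⟨L₀, hL₀, hcl⟩ := hfge E hE
  choose T hT hCT using fun j => fd_closure (hCk j)
  set L₁ : Set ℂ := L₀ ∪ ⋃ j : Fin r, T j with hL₁
  have hL₁f : L₁.Finite := hL₀.union (finite_iUnion fun j => hT j)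
  obtain ⟨V, hVfd, hV, hcore⟩ := exists_core hL₁f
  have ht := tuplesC (Q := fun j => qn (k j)) (F := F) (L := L) hinf hral hlos hfc hmta hcpt
    hsnoc hfree hind hq hL hMt hno' hL₁f
    (V := V) ⟨hVfd, hV⟩ (fun W hW1 hW2 h => (hcore W hW1 hW2).2.2.mpr h) r n
  have ht2 := ht.mono (D := {b : ∀ i : Fin r, HeightOneSpectrum (𝓞 (k i)) →₀ ℕ |
      (fun i => toI (b i)) ∈ {I : ∀ j : Fin r, Ideal (𝓞 (k j)) |
      ∃ (β : ∀ j : Fin r, 𝓞 (k j)) (l : Fin r → ℂ) (α : Fin n → ℂ),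
        (∀ j : Fin r, Ideal.span {β j} = I j ∧ Complex.exp (l j) = σ j (β j)) ∧
        (∀ i, IsAlgebraic ℚ (α i)) ∧
        ¬ AlgebraicIndependent (KL ((E : Set ℂ) ∪ range fun i => Complex.exp (α i))) l}}) (by
    rintro b ⟨β, l, α, hβ, hα, hAI⟩
    refine ⟨Submodule.span ℚ (range α), good_span' hα, ?_, fun hcon => hAI ?_⟩
    · exact (finrank_range_le_card α).trans (by rw [Fintype.card_fin])
    · have h1 := hshf _ r _ (fun j : Fin r => l j - Fv (F j) (b j)) (fun j => ?_) hcon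
      · have e : (fun j : Fin r => Fv (F j) (b j) + (l j - Fv (F j) (b j))) = l := by
          funext j; ring
        rw [e] at h1
        refine hmon _ _ ?_ r _ h1
        intro z hz
        have h2 : z ∈ AM.closure ((E : Set ℂ) ∪ range fun i => Complex.exp (α i)) :=
          AM.subset_closure _ (subset_univ _) hz
        have h3 : AM.closure ((E : Set ℂ) ∪ range fun i => Complex.exp (α i)) =
            AM.closure (expSet (Submodule.span ℚ (range α)) ∪ L₀) := by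
          rw [union_comm, ← closure_exp_union]
          exact AC.cl_union_congr rfl hcl
        rw [h3] at h2
        exact AM.closure_subset_closure (union_subset_union_right _ subset_union_left) h2
      · have h1 := hlgk j (b j) (β j) (l j) (hβ j).1 (hβ j).2
        have h2 := hCT j _ h1
        refine AM.closure_subset_closure ?_ h2
        exact (subset_iUnion (fun j : Fin r => T j) j).trans
          (subset_union_right.trans subset_union_right))
  refine ht2.congr fun x => ?_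
  unfold idsF
  rw [hbrr k L hL]

/-- the second part -/
theorem main2 (hmon : AC.S_mon) (haix : AC.S_aix)
    (k : ℕ → Type) [∀ j, Field (k j)] [∀ j, NumberField (k j)] (σ : ∀ j, k j →+* ℂ)
    (htoi : S_toi) (hisl : S_isl) (hbrr : S_brr)
    (h1 : ∀ (E : IntermediateField ℚ ℂ), E.FG → ∀ n r : ℕ,
      Tendsto (fun x : ℕ => idsF k {I : ∀ j : Fin r, Ideal (𝓞 (k j)) |
      ∃ (β : ∀ j : Fin r, 𝓞 (k j)) (l : Fin r → ℂ) (α : Fin n → ℂ),
        (∀ j : Fin r, Ideal.span {β j} = I j ∧ Complex.exp (l j) = σ j (β j)) ∧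
        (∀ i, IsAlgebraic ℚ (α i)) ∧
        ¬ AlgebraicIndependent (KL ((E : Set ℂ) ∪ range fun i => Complex.exp (α i))) l} x /
      (Real.log x) ^ r) atTop (𝓝 0)) (n r : ℕ) :
    Tendsto (fun x : ℕ => idsF k {I : ∀ j : Fin r, Ideal (𝓞 (k j)) |
      ∃ (β : ∀ j : Fin r, 𝓞 (k j)) (l : Fin r → ℂ) (α : Fin n → ℂ),
        (∀ j : Fin r, Ideal.span {β j} = I j ∧ Complex.exp (l j) = σ j (β j)) ∧
        (∀ i, IsAlgebraic ℚ (α i)) ∧ LinearIndependent ℚ α ∧ ¬ AIx α l} x /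
      (Real.log x) ^ r) atTop (𝓝 0) := by
  classical
  choose L hL using fun j => hisl (k j)
  have h2 := h1 ⊥ IntermediateField.fg_bot n r
  unfold idsF at h2 ⊢
  simp only [hbrr k L hL] at h2 ⊢
  refine LNF.mono h2 ?_
  rintro b ⟨β, l, α, hβ, hα, hlin, hAI⟩
  refine ⟨β, l, α, hβ, hα, fun h => hAI ?_⟩
  rw [haix n r α _ hα hlin]
  refine hmon _ _ ?_ r _ h
  exact subset_union_right.trans (AM.subset_closure _)

/-- the third part: an exceptional field -/
theorem main3 (hmon : AC.S_mon) (hdim : AC.S_dim) (hfin : AC.S_fin) (hexs : S_exs)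
    (hfra : S_fra) (hprod : S_prod) (hshift : S_shift) (hcls : S_cls) (hexn : S_exn)
    (hbrr : S_brr) (hcnt : S_cnt) (htoi : S_toi) (hisl : S_isl) (hcnz : S_cnz)
    (hgen : S_gen) (hlg : S_lg)
    (K : Type) [Field K] [NumberField K] (σ : K →+* ℂ) (hex : ExcNF σ) :
    (∃ (r : ℕ) (δ : ℝ), 0 < δ ∧ ∀ᶠ x : ℕ in atTop, δ * (Real.log x) ^ r ≤
      idsF (fun _ => K) {I : Fin r → Ideal (𝓞 K) | (∀ j, ∃ β : 𝓞 K, Ideal.span {β} = I j) ∧
        ∀ (β : Fin r → 𝓞 K) (l : Fin r → ℂ),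
          (∀ j, Ideal.span {β j} = I j ∧ Complex.exp (l j) = σ (β j)) →
          ¬ AlgebraicIndependent (integralClosure ℚ ℂ) l} x) ∧
    ∀ E : IntermediateField ℚ ℂ, E.FG → ∀ ε : ℝ, 0 < ε → ε < 1 →
      ∃ V : Submodule ℚ ℂ, FiniteDimensional ℚ V ∧ (∀ v ∈ V, IsAlgebraic ℚ v) ∧
        ∀ r x : ℕ, (1 - ε) ^ r * idsF (fun _ => K) (univ : Set (Fin r → Ideal (𝓞 K))) x ≤
          idsF (fun _ => K) {I : Fin r → Ideal (𝓞 K) | ∀ (β : Fin r → 𝓞 K) (l : Fin r → ℂ),
            (∀ j, Ideal.span {β j} = I j ∧ Complex.exp (l j) = σ (β j)) →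
            ∀ (n : ℕ) (α : Fin n → ℂ), (∀ i, IsAlgebraic ℚ (α i)) →
              LinearIndependent ℚ α → Disjoint (Submodule.span ℚ (range α)) V →
              AlgebraicIndependent (KL ((E : Set ℂ) ∪ range l))
                (fun i => Complex.exp (α i))} x := by
  classical
  obtain ⟨L, hL⟩ := hisl K
  obtain ⟨κ, hκ, hlim0⟩ := hcnz K L hL
  have hq : ∀ v, 2 ≤ qn K v := (htoi K).1
  obtain ⟨-, c, hc, hLow⟩ := hcnt _ (qn K) L hq hL κ hκ hlim0
  obtain ⟨h, γ, hγ⟩ := hgen K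
  obtain ⟨Ck, hCk, hlgk⟩ := hlg K σ h γ hγ
  obtain ⟨T, hT, hCT⟩ := fd_closure hCk
  set f := fn σ h γ with hf
  have hexc : EXC (qn K) f := (hexn K σ h γ hγ).mpr hex
  have hLc : ∀ j : ℕ, IsL (qn K) ((fun _ => L : ∀ _ : ℕ, ℕ → Finset _) j) := fun _ => hL
  refine ⟨?_, ?_⟩
  · obtain ⟨B, hB1, hB2⟩ := hexs _ (qn K) f hq hexc (1 / 2) (by norm_num)
    obtain ⟨L', hL', hBL, -⟩ := hfin _ ⊥ hB2 IntermediateField.fg_bot
    obtain ⟨J, hJ⟩ := hcls K
    set L'' : Set ℂ := L' ∪ (T ∪ Fv f '' (J : Set _)) with hL''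
    have hL''f : L''.Finite := hL'.union (hT.union (J.finite_toSet.image _))
    set A₀ : Set (HeightOneSpectrum (𝓞 K) →₀ ℕ) := {m | ∀ i ∈ m.support, i ∈ B} with hA₀
    set B₀ : Set (HeightOneSpectrum (𝓞 K) →₀ ℕ) := {m | (∃ β : 𝓞 K, Ideal.span {β} = toI m) ∧
      ∀ (β : 𝓞 K) (l : ℂ), Ideal.span {β} = toI m → Complex.exp l = σ β →
        l ∈ AM.closure L''} with hB₀
    obtain ⟨δ, hδ, hδ1⟩ := hshift _ (qn K) L hq hL A₀ B₀ J (by
      intro m hm
      obtain ⟨j, hj, β₀, hβ₀⟩ := hJ m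
      refine ⟨j, hj, ⟨β₀, hβ₀⟩, ?_⟩
      intro β l hβ hl
      have h1 := hCT _ (hlgk (m + j) β l hβ hl)
      rw [fv_add] at h1
      have e : l = (l - (Fv f m + Fv f j)) + (Fv f m + Fv f j) := by ring
      rw [e]
      apply add_mem_cl'
      · exact AM.closure_subset_closure (subset_union_left.trans subset_union_right) h1
      · apply add_mem_cl'
        · have h2 := AM.closure_subset_closure hBL (fv_closure hm)
          rw [Matroid.closure_closure] at h2
          exact AM.closure_subset_closure subset_union_left h2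
        · apply AM.subset_closure _ (subset_univ _)
          right; right
          exact ⟨j, hj, rfl⟩) ⟨c / 2, by positivity, by
        filter_upwards [hLow] with x hx
        have h1 := hfra _ (qn K) L hq hL B (1 / 2) hB1 x
        have h2 : (1 - 1 / 2 : ℝ) * Wt (qn K) univ (L x) ≤ Wt (qn K) A₀ (L x) := h1
        linarith⟩
    set t : ℕ := (AM.eRk L'').toNat with ht
    refine ⟨t + 1, δ ^ (t + 1), by positivity, ?_⟩
    filter_upwards [hδ1] with x hx
    unfold idsF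
    rw [hbrr (fun _ => K) (fun _ => L) hLc]
    have h1 := hprod (fun _ => HeightOneSpectrum (𝓞 K)) (fun _ => qn K) (fun _ => L) (t + 1)
      (fun _ => B₀) x
    rw [Finset.prod_const, Finset.card_univ, Fintype.card_fin] at h1
    calc δ ^ (t + 1) * (Real.log x) ^ (t + 1) = (δ * Real.log x) ^ (t + 1) := by rw [mul_pow]
      _ ≤ (Wt (qn K) B₀ (L x)) ^ (t + 1) :=
          pow_le_pow_left₀ (mul_nonneg hδ.le (Real.log_natCast_nonneg x)) hx _
      _ = _ := h1.symm
      _ ≤ _ := by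
          apply wtF_mono
          intro b hb
          refine ⟨fun j => (hb j).1, fun β l hβl => ?_⟩
          apply hdim L'' t _ (coe_t hL''f).ge (Nat.lt_succ_self _)
          intro j
          exact (hb j).2 (β j) (l j) (hβl j).1 (hβl j).2
  · intro E hE ε hε hε1
    obtain ⟨B, hB1, hB2⟩ := hexs _ (qn K) f hq hexc ε hε
    obtain ⟨L', hL', hBL, hEL⟩ := hfin _ E hB2 hE
    set L'' : Set ℂ := L' ∪ T with hL''
    have hL''f : L''.Finite := hL'.union hT
    obtain ⟨V, hVfd, hV, hcore⟩ := exists_core hL''f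
    refine ⟨V, hVfd, hV, fun r x => ?_⟩
    set A₀ : Set (HeightOneSpectrum (𝓞 K) →₀ ℕ) := {m | ∀ i ∈ m.support, i ∈ B} with hA₀
    unfold idsF
    rw [hbrr (fun _ => K) (fun _ => L) hLc, hbrr (fun _ => K) (fun _ => L) hLc]
    have h1 := hprod (fun _ => HeightOneSpectrum (𝓞 K)) (fun _ => qn K) (fun _ => L) r
      (fun _ => A₀) x
    have h2 := hprod (fun _ => HeightOneSpectrum (𝓞 K)) (fun _ => qn K) (fun _ => L) r
      (fun _ => univ) x
    rw [Finset.prod_const, Finset.card_univ, Fintype.card_fin] at h1 h2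
    have h3 : (1 - ε) * Wt (qn K) univ (L x) ≤ Wt (qn K) A₀ (L x) :=
      hfra _ (qn K) L hq hL B ε hB1 x
    have h4 : WtF (fun _ => qn K) (fun _ => L) {b : ∀ _ : Fin r,
        HeightOneSpectrum (𝓞 K) →₀ ℕ | (fun i => toI (b i)) ∈
          (univ : Set (Fin r → Ideal (𝓞 K)))} x ≤ (Wt (qn K) univ (L x)) ^ r := by
      rw [← h2]
      apply wtF_mono
      intro b _ j
      exact mem_univ _
    have h0 : 0 ≤ 1 - ε := by linarith
    calc _ ≤ (1 - ε) ^ r * (Wt (qn K) univ (L x)) ^ r :=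
          mul_le_mul_of_nonneg_left h4 (pow_nonneg h0 _)
      _ = ((1 - ε) * Wt (qn K) univ (L x)) ^ r := by rw [mul_pow]
      _ ≤ (Wt (qn K) A₀ (L x)) ^ r :=
          pow_le_pow_left₀ (mul_nonneg h0 (wt_nonneg _ _)) h3 _
      _ = _ := h1.symm
      _ ≤ _ := by
          apply wtF_mono
          intro b hb β l hβl n α hα hlin hdis
          have hfd : FiniteDimensional ℚ (Submodule.span ℚ (range α)) :=
            FiniteDimensional.span_of_finite ℚ (finite_range α)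
          have h5 : dl L'' (Submodule.span ℚ (range α)) = 0 := by
            rw [(hcore _ hfd (span_alg hα)).1, hdis.eq_bot, dl_bot hL''f]
          have h6 := (dl_eq_zero_iff hL''f hα hlin).mp h5
          refine hmon L'' _ ?_ n _ h6
          apply union_subset
          · exact hEL.trans (AM.closure_subset_closure subset_union_left)
          · rintro _ ⟨j, rfl⟩
            have h7 := hCT _ (hlgk (b j) (β j) (l j) (hβl j).1 (hβl j).2)
            have e : l j = (l j - Fv f (b j)) + Fv f (b j) := by ring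
            rw [e]
            apply add_mem_cl'
            · exact AM.closure_subset_closure subset_union_right h7
            · have h8 := AM.closure_subset_closure hBL (fv_closure (hb j))
              rw [Matroid.closure_closure] at h8
              exact AM.closure_subset_closure subset_union_left h8

end Pool.Agent.Lib.MP_c82530_nt.AH
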