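import Mathlib
import Pool.Agent.Lib.MP_c82530_nt.AH.Stm

set_option autoImplicit false

/-!
# MP_c82530_nt, AH, piece BRR: sums over tuples of ideals are sums over exponents
-/

namespace Pool.Agent.Lib.MP_c82530_nt.AH

open Set Pool.Agent.Lib.MP_c82530_nt Pool.Agent.Lib.MP_c82530_nt.AA
  Pool.Agent.Lib.MP_c82530_nt.AG Module Filter Topology
open NumberField IsDedekindDomain

theorem p_brr (htoi : S_toi) : S_brr := by
  intro k _ _ L hL r D x
  classical
  have h2 := fun j => (htoi (k j)).2.1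
  have h3 := fun j => (htoi (k j)).2.2.1
  have h4 := fun j => (htoi (k j)).2.2.2.1
  have hinj : ∀ a b : (∀ i : Fin r, HeightOneSpectrum (𝓞 (k i)) →₀ ℕ),
      (fun i : Fin r => toI (a i)) = (fun i : Fin r => toI (b i)) → a = b := by
    intro a b h
    funext i
    exact h3 i (congrFun h i)
  have hset : {I : ∀ i : Fin r, Ideal (𝓞 (k i)) |
        I ∈ D ∧ ∀ i : Fin r, Ideal.absNorm (I i) ≤ x} ∩
      Function.support (fun I : (∀ i : Fin r, Ideal (𝓞 (k i))) =>
        ∏ i : Fin r, (Ideal.absNorm (I i) : ℝ)⁻¹) =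
      ((((Fintype.piFinset (fun i : Fin r => L i x)).filter
        (fun m => (fun i : Fin r => toI (m i)) ∈ D)).image
          (fun (m : ∀ i : Fin r, HeightOneSpectrum (𝓞 (k i)) →₀ ℕ) (i : Fin r) => toI (m i)) :
          Finset (∀ i : Fin r, Ideal (𝓞 (k i)))) : Set (∀ i : Fin r, Ideal (𝓞 (k i)))) ∩
      Function.support (fun I : (∀ i : Fin r, Ideal (𝓞 (k i))) =>
        ∏ i : Fin r, (Ideal.absNorm (I i) : ℝ)⁻¹) := by
    ext I
    simp only [mem_inter_iff, mem_ofPred_eq, Function.mem_support, Finset.coe_image,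
      Finset.coe_filter, mem_image, Fintype.mem_piFinset]
    constructor
    · rintro ⟨⟨hA, hx⟩, hs⟩
      refine ⟨?_, hs⟩
      have hI : ∀ i : Fin r, I i ≠ ⊥ := by
        intro i hi
        apply hs
        refine Finset.prod_eq_zero (Finset.mem_univ i) ?_
        rw [hi, Ideal.absNorm_bot]
        simp
      choose m hm using fun i : Fin r => h4 i (I i) (hI i)
      have hmI : (fun i : Fin r => toI (m i)) = I := funext hm
      refine ⟨m, ⟨fun i => (hL i x (m i)).2 ?_, ?_⟩, hmI⟩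
      · rw [← (h2 i (m i)).1, hm i]
        exact hx i
      · rw [hmI]
        exact hA
    · rintro ⟨⟨m, ⟨hm, hA⟩, rfl⟩, hs⟩
      refine ⟨⟨hA, fun i => ?_⟩, hs⟩
      rw [(h2 i (m i)).1]
      exact (hL i x (m i)).1 (hm i)
  rw [finsum_mem_eq_sum_of_inter_support_eq _ hset, Finset.sum_image (fun a _ b _ h => hinj a b h)]
  unfold WtF
  rw [Finset.sum_filter]
  refine Finset.sum_congr rfl fun m _ => ?_
  by_cases hm : (fun i : Fin r => toI (m i)) ∈ D
  · rw [if_pos hm, indicator_of_mem (show m ∈ {b : ∀ i : Fin r, HeightOneSpectrum (𝓞 (k i)) →₀ ℕ |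
      (fun i => toI (b i)) ∈ D} from hm)]
    exact Finset.prod_congr rfl fun i _ => by rw [(h2 i (m i)).1]
  · rw [if_neg hm, indicator_of_notMem (show m ∉ {b : ∀ i : Fin r,
      HeightOneSpectrum (𝓞 (k i)) →₀ ℕ | (fun i => toI (b i)) ∈ D} from hm)]

end Pool.Agent.Lib.MP_c82530_nt.AH
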