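import Mathlib
import Pool.Agent.Lib.MP_c82530_nt.AH.Stm

set_option autoImplicit false

namespace Pool.Agent.Lib.MP_c82530_nt.AH

open Set Pool.Agent.Lib.MP_c82530_nt Pool.Agent.Lib.MP_c82530_nt.AG Module Filter
open Pool.Agent.Lib.MP_c82530_nt.AB (KS)

private lemma ahcpt_mem_KS {s : Set ℂ} {z : ℂ} : z ∈ KS s ↔ z ∈ AM.closure s := mem_clF

/-- piece CPT -/
theorem p_cpt : S_cpt := by
  classical
  intro ι _ q f hq hE t C E
  by_contra hcon
  push Not at hcon
  have hcon' : ∀ P : Finset ι, ∃ s : Set ℂ, AM.eRk s ≤ t ∧ EK q f (KS s) (P \ E) < C :=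
    fun P => hcon (P \ E) Finset.sdiff_disjoint
  choose s hs1 hs2 using hcon'
  let U : Ultrafilter (Finset ι) := Ultrafilter.of atTop
  have hU : (U : Filter (Finset ι)) ≤ atTop := Ultrafilter.of_le atTop
  let A : Set ι := {i | ∀ᶠ P in (U : Filter (Finset ι)), f i ∈ KS (s P)}
  apply hE
  refine ⟨t, C + ∑ i ∈ E, (q i : ℝ)⁻¹, A, ?_, ?_⟩
  · intro P hP
    rw [← Finset.sum_filter_add_sum_filter_not P (fun i => i ∉ E)]
    apply add_le_add
    · have hev : ∀ᶠ Q in (U : Filter (Finset ι)), ∀ i ∈ P.filter (fun i => i ∉ E),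
          i ∈ Q \ E ∧ f i ∉ KS (s Q) := by
        rw [Filter.eventually_all_finset]
        intro i hi
        rw [Finset.mem_filter] at hi
        have hiP := hP i hi.1
        have h1 : ∀ᶠ Q in (U : Filter (Finset ι)), f i ∉ KS (s Q) := by
          rw [Ultrafilter.eventually_not]
          exact hiP
        have h2 : ∀ᶠ Q in (U : Filter (Finset ι)), ({i} : Finset ι) ≤ Q :=
          hU (Filter.mem_atTop ({i} : Finset ι))
        filter_upwards [h1, h2] with Q h3 h4
        exact ⟨Finset.mem_sdiff.mpr ⟨h4 (Finset.mem_singleton_self i), hi.2⟩, h3⟩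
      obtain ⟨Q, hQ⟩ := hev.exists
      refine le_trans ?_ (hs2 Q).le
      unfold EK
      have h5 : ∑ i ∈ P with i ∉ E, (q i : ℝ)⁻¹ =
          ∑ i ∈ P with i ∉ E, {i : ι | f i ∉ KS (s Q)}.indicator (fun i => (q i : ℝ)⁻¹) i := by
        refine Finset.sum_congr rfl fun i hi => ?_
        rw [Set.indicator_of_mem]
        exact (hQ i hi).2
      rw [h5]
      refine Finset.sum_le_sum_of_subset_of_nonneg (fun i hi => (hQ i hi).1) fun i _ _ => ?_
      exact Set.indicator_nonneg (fun i _ => by positivity) i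
    · refine Finset.sum_le_sum_of_subset_of_nonneg (fun i hi => ?_) fun i _ _ => by positivity
      rw [Finset.mem_filter, not_not] at hi
      exact hi.2
  · by_contra hlt
    rw [not_le] at hlt
    have h1 : ((t + 1 : ℕ) : ℕ∞) ≤ AM.eRk (f '' A) := by
      have := Order.add_one_le_of_lt hlt
      exact_mod_cast this
    obtain ⟨I, hIs, hI, hIc⟩ := Matroid.le_eRk_iff.mp h1
    have hfin : I.Finite := by
      rw [← Set.encard_lt_top_iff, hIc]
      exact ENat.natCast_lt_top _
    have hev : ∀ᶠ Q in (U : Filter (Finset ι)), ∀ z ∈ hfin.toFinset, z ∈ AM.closure (s Q) := by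
      rw [Filter.eventually_all_finset]
      intro z hz
      rw [Set.Finite.mem_toFinset] at hz
      obtain ⟨i, hi, rfl⟩ := hIs hz
      filter_upwards [hi] with Q hQ
      exact ahcpt_mem_KS.mp hQ
    obtain ⟨Q, hQ⟩ := hev.exists
    have h2 : I ⊆ AM.closure (s Q) := fun z hz => hQ z (by rwa [Set.Finite.mem_toFinset])
    have h3 : AM.eRk I ≤ t := by
      refine (AM.eRk_mono h2).trans ?_
      rw [Matroid.eRk_closure_eq]
      exact hs1 Q
    rw [hI.eRk_eq_encard, hIc] at h3
    have h4 : t + 1 ≤ t := by exact_mod_cast h3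
    omega

end Pool.Agent.Lib.MP_c82530_nt.AH
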