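import Pool.Agent.Lib.MP_c82530_nt.AH.Stm
import Pool.Agent.Lib.MP_c82530_nt.AC.Exc

set_option autoImplicit false

/-!
Piece EXN: the exceptional case for a number field.
-/

namespace Pool.Agent.Lib.MP_c82530_nt.AH

open Set Pool.Agent.Lib.MP_c82530_nt Pool.Agent.Lib.MP_c82530_nt.AA
  Pool.Agent.Lib.MP_c82530_nt.AG Module Filter Topology
open NumberField IsDedekindDomain

private lemma exn_ks {s : Set ℂ} {z : ℂ} : z ∈ AB.KS s ↔ z ∈ AM.closure s := mem_clF

theorem p_exn (hlg : S_lg) (_htoi : S_toi) : S_exn := by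
  classical
  intro k _ _ σ h γ hγ
  have hh : (h : ℂ) ≠ 0 := Nat.cast_ne_zero.2 hγ.1.ne'
  constructor
  · rintro ⟨t, C, A, hA2, hA3⟩
    obtain ⟨I, hI⟩ := AM.exists_isBasis (fn σ h γ '' A) (subset_univ _)
    have hIf : I.Finite := by
      rw [← encard_ne_top_iff, hI.encard_eq_eRk]
      exact ne_top_of_le_ne_top (ENat.natCast_ne_top t) hA3
    obtain ⟨D, hD, hD2⟩ := hlg k σ h γ hγ
    obtain ⟨S, hS⟩ : ∃ S : Finset ℂ, Submodule.span ℚ (S : Set ℂ) = D := by
      have h1 : D.FG := (Submodule.fg_iff_finiteDimensional D).2 hD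
      exact h1
    have hDc : D ≤ AB.KS (I ∪ S) := by
      rw [← hS, Submodule.span_le]
      intro z hz
      exact exn_ks.2 (AM.mem_closure_of_mem' (Or.inr hz) (mem_univ _))
    refine ⟨A, I ∪ S, hIf.union S.finite_toSet, ?_, ?_⟩
    · refine summable_of_sum_le (c := C) ?_ ?_
      · intro v
        exact Set.indicator_nonneg (fun _ _ => by positivity) v
      · intro u
        have h1 : ∑ v ∈ u, (Aᶜ.indicator
            (fun v : HeightOneSpectrum (𝓞 k) => (Ideal.absNorm v.asIdeal : ℝ)⁻¹)) v =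
            ∑ v ∈ u.filter (fun v => v ∉ A), (qn k v : ℝ)⁻¹ := by
          rw [Finset.sum_filter]
          refine Finset.sum_congr rfl fun v _ => ?_
          rw [Set.indicator_apply]
          rfl
        rw [h1]
        exact hA2 _ fun v hv => (Finset.mem_filter.1 hv).2
    · intro v hv γ' n l hspan hexp
      rw [AC.isAlg_adjoin_iff]
      have h1 : toI (Finsupp.single v n) = v.asIdeal ^ n := by
        unfold toI
        exact Finsupp.prod_single_index (h := fun (w : HeightOneSpectrum (𝓞 k)) (j : ℕ) =>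
          w.asIdeal ^ j) (pow_zero _)
      have h2 := hD2 (Finsupp.single v n) γ' l (by rw [hspan, h1]) hexp
      have h3 : Fv (fn σ h γ) (Finsupp.single v n) = (n : ℂ) * fn σ h γ v := by
        unfold Fv
        exact Finsupp.sum_single_index (h := fun (w : HeightOneSpectrum (𝓞 k)) (j : ℕ) =>
          (j : ℂ) * fn σ h γ w) (by simp)
      rw [h3] at h2
      have h4 : fn σ h γ v ∈ clF (I ∪ S) := by
        rw [mem_clF]
        have h5 : fn σ h γ v ∈ AM.closure I := by
          rw [hI.closure_eq_closure]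
          exact AM.mem_closure_of_mem' ⟨v, hv, rfl⟩ (mem_univ _)
        exact AM.closure_subset_closure subset_union_left h5
      have h6 : l - (n : ℂ) * fn σ h γ v ∈ clF (I ∪ S) := hDc h2
      have h7 := (clF (I ∪ S)).add_mem h6 ((clF (I ∪ S)).mul_mem (natCast_mem _ n) h4)
      rw [sub_add_cancel] at h7
      exact mem_clF.1 h7
  · rintro ⟨A, T, hT, hS, hA⟩
    refine ⟨T.ncard, ∑' v, (Aᶜ.indicator
      (fun v : HeightOneSpectrum (𝓞 k) => (Ideal.absNorm v.asIdeal : ℝ)⁻¹)) v, A, ?_, ?_⟩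
    · intro P hP
      have h1 : ∑ v ∈ P, (qn k v : ℝ)⁻¹ = ∑ v ∈ P, (Aᶜ.indicator
          (fun v : HeightOneSpectrum (𝓞 k) => (Ideal.absNorm v.asIdeal : ℝ)⁻¹)) v := by
        refine Finset.sum_congr rfl fun v hv => ?_
        rw [Set.indicator_of_mem (hP v hv)]
        rfl
      rw [h1]
      refine hS.sum_le_tsum _ fun v _ => ?_
      exact Set.indicator_nonneg (fun _ _ => by positivity) v
    · have h1 : fn σ h γ '' A ⊆ AM.closure T := by
        rintro _ ⟨v, hv, rfl⟩
        have h2 : σ (γ v) ≠ 0 := by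
          rw [Ne, map_eq_zero]
          exact fun h0 => (hγ.2 v).1 (by exact_mod_cast h0)
        have h3 : Complex.log (σ (γ v)) ∈ clF T :=
          mem_clF.2 (AC.isAlg_adjoin_iff.1 (hA v hv (γ v) h _ (hγ.2 v).2 (Complex.exp_log h2)))
        exact mem_clF.1 ((clF T).mul_mem ((clF T).inv_mem (natCast_mem _ h)) h3)
      refine (AM.eRk_mono h1).trans ?_
      rw [AM.eRk_closure_eq]
      refine (AM.eRk_le_encard T).trans ?_
      rw [← hT.cast_ncard_eq]

end Pool.Agent.Lib.MP_c82530_nt.AH
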