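import Mathlib
import Pool.Agent.Lib.MP_c82530_nt.AH.Stm

set_option autoImplicit false

namespace Pool.Agent.Lib.MP_c82530_nt.AH

open Set Pool.Agent.Lib.MP_c82530_nt Pool.Agent.Lib.MP_c82530_nt.AG Module Filter Topology

private theorem fc_w {ι : Type} (X : Finset ι) (w g : ι → ℝ) (hw : ∀ s ∈ X, 0 ≤ w s) :
    (∑ s ∈ X, w s * g s) ^ 2 ≤ (∑ s ∈ X, w s) * ∑ s ∈ X, w s * g s ^ 2 := by
  refine Finset.sum_sq_le_sum_mul_sum_of_sq_le_mul X hw (fun s hs => ?_) fun s _ => ?_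
  · exact mul_nonneg (hw s hs) (sq_nonneg _)
  · exact le_of_eq (by ring)

private theorem fc_F {T : Type} (X Y : Finset T) (w v : T → ℝ) (hw : ∀ s ∈ X, 0 ≤ w s)
    (hv : ∀ t ∈ Y, 0 ≤ v t) (F : T → T → ℝ) :
    (∑ s ∈ X, ∑ t ∈ Y, F s t * (w s * v t)) ^ 4 ≤
    (∑ s ∈ X, w s) ^ 2 * (∑ t ∈ Y, v t) ^ 2 *
      ∑ s ∈ X, ∑ s' ∈ X, ∑ t ∈ Y, ∑ t' ∈ Y,
        F s t * F s' t * F s t' * F s' t' * (w s * w s' * v t * v t') := by
  set A : ℝ := ∑ s ∈ X, w s * ∑ t ∈ Y, F s t * v t with hA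
  set B : ℝ := ∑ s ∈ X, w s * (∑ t ∈ Y, F s t * v t) ^ 2 with hB
  have h1 : ∑ s ∈ X, ∑ t ∈ Y, F s t * (w s * v t) = A := by
    rw [hA]
    refine Finset.sum_congr rfl fun s _ => ?_
    rw [Finset.mul_sum]
    refine Finset.sum_congr rfl fun t _ => ?_
    ring
  have h2 : A ^ 2 ≤ (∑ s ∈ X, w s) * B := fc_w X w _ hw
  have h3 : B = ∑ p ∈ Y ×ˢ Y, v p.1 * v p.2 * ∑ s ∈ X, w s * (F s p.1 * F s p.2) := by
    rw [hB, Finset.sum_product]
    have h4 : ∀ s ∈ X, w s * (∑ t ∈ Y, F s t * v t) ^ 2 =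
        ∑ t ∈ Y, ∑ t' ∈ Y, v t * v t' * (w s * (F s t * F s t')) := by
      intro s _
      rw [sq, Finset.sum_mul_sum, Finset.mul_sum]
      refine Finset.sum_congr rfl fun t _ => ?_
      rw [Finset.mul_sum]
      refine Finset.sum_congr rfl fun t' _ => ?_
      ring
    rw [Finset.sum_congr rfl h4, Finset.sum_comm]
    refine Finset.sum_congr rfl fun t _ => ?_
    rw [Finset.sum_comm]
    refine Finset.sum_congr rfl fun t' _ => ?_
    rw [Finset.mul_sum]
  have h5 := fc_w (Y ×ˢ Y) (fun p => v p.1 * v p.2)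
    (fun p => ∑ s ∈ X, w s * (F s p.1 * F s p.2)) (fun p hp => by
      rw [Finset.mem_product] at hp
      exact mul_nonneg (hv _ hp.1) (hv _ hp.2))
  rw [← h3] at h5
  have h6 : ∑ p ∈ Y ×ˢ Y, v p.1 * v p.2 = (∑ t ∈ Y, v t) ^ 2 := by
    rw [sq, Finset.sum_mul_sum, Finset.sum_product]
  have h7 : ∑ p ∈ Y ×ˢ Y, v p.1 * v p.2 * (∑ s ∈ X, w s * (F s p.1 * F s p.2)) ^ 2 =
      ∑ s ∈ X, ∑ s' ∈ X, ∑ t ∈ Y, ∑ t' ∈ Y,
        F s t * F s' t * F s t' * F s' t' * (w s * w s' * v t * v t') := by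
    rw [Finset.sum_product]
    have h8 : ∀ t ∈ Y, ∀ t' ∈ Y, v t * v t' * (∑ s ∈ X, w s * (F s t * F s t')) ^ 2 =
        ∑ s ∈ X, ∑ s' ∈ X, F s t * F s' t * F s t' * F s' t' * (w s * w s' * v t * v t') := by
      intro t _ t' _
      rw [sq, Finset.sum_mul_sum, Finset.mul_sum]
      refine Finset.sum_congr rfl fun s _ => ?_
      rw [Finset.mul_sum]
      refine Finset.sum_congr rfl fun s' _ => ?_
      ring
    rw [Finset.sum_congr rfl fun t ht => Finset.sum_congr rfl fun t' ht' => h8 t ht t' ht']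
    calc ∑ t ∈ Y, ∑ t' ∈ Y, ∑ s ∈ X, ∑ s' ∈ X,
          F s t * F s' t * F s t' * F s' t' * (w s * w s' * v t * v t')
        = ∑ t ∈ Y, ∑ s ∈ X, ∑ t' ∈ Y, ∑ s' ∈ X,
          F s t * F s' t * F s t' * F s' t' * (w s * w s' * v t * v t') :=
          Finset.sum_congr rfl fun t _ => Finset.sum_comm
      _ = ∑ s ∈ X, ∑ t ∈ Y, ∑ t' ∈ Y, ∑ s' ∈ X,
          F s t * F s' t * F s t' * F s' t' * (w s * w s' * v t * v t') := Finset.sum_comm
      _ = ∑ s ∈ X, ∑ t ∈ Y, ∑ s' ∈ X, ∑ t' ∈ Y,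
          F s t * F s' t * F s t' * F s' t' * (w s * w s' * v t * v t') :=
          Finset.sum_congr rfl fun s _ => Finset.sum_congr rfl fun t _ => Finset.sum_comm
      _ = _ := Finset.sum_congr rfl fun s _ => Finset.sum_comm
  rw [h6, h7] at h5
  rw [h1]
  have h9 : (A ^ 2) ^ 2 ≤ ((∑ s ∈ X, w s) * B) ^ 2 := pow_le_pow_left₀ (sq_nonneg _) h2 2
  calc A ^ 4 = (A ^ 2) ^ 2 := by ring
    _ ≤ ((∑ s ∈ X, w s) * B) ^ 2 := h9
    _ = (∑ s ∈ X, w s) ^ 2 * B ^ 2 := by ring
    _ ≤ (∑ s ∈ X, w s) ^ 2 * ((∑ t ∈ Y, v t) ^ 2 * _) :=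
        mul_le_mul_of_nonneg_left h5 (sq_nonneg _)
    _ = _ := by ring

private theorem fc_cs {T : Type} (X Y : Finset T) (w v : T → ℝ) (hw : ∀ s ∈ X, 0 ≤ w s)
    (hv : ∀ t ∈ Y, 0 ≤ v t) (f : T → T → Prop) [∀ s t, Decidable (f s t)] :
    (∑ s ∈ X, ∑ t ∈ Y, if f s t then w s * v t else 0) ^ 4 ≤
    (∑ s ∈ X, w s) ^ 2 * (∑ t ∈ Y, v t) ^ 2 *
      ∑ s ∈ X, ∑ s' ∈ X, ∑ t ∈ Y, ∑ t' ∈ Y,
        if f s t ∧ f s' t ∧ f s t' ∧ f s' t' then w s * w s' * v t * v t' else 0 := by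
  have h := fc_F X Y w v hw hv (fun s t => if f s t then (1 : ℝ) else 0)
  have h1 : ∑ s ∈ X, ∑ t ∈ Y, (if f s t then w s * v t else 0) =
      ∑ s ∈ X, ∑ t ∈ Y, (if f s t then (1 : ℝ) else 0) * (w s * v t) := by
    refine Finset.sum_congr rfl fun s _ => Finset.sum_congr rfl fun t _ => ?_
    split_ifs <;> ring
  have h2 : ∑ s ∈ X, ∑ s' ∈ X, ∑ t ∈ Y, ∑ t' ∈ Y,
      (if f s t ∧ f s' t ∧ f s t' ∧ f s' t' then w s * w s' * v t * v t' else 0) =
      ∑ s ∈ X, ∑ s' ∈ X, ∑ t ∈ Y, ∑ t' ∈ Y,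
        (if f s t then (1 : ℝ) else 0) * (if f s' t then (1 : ℝ) else 0) *
          (if f s t' then (1 : ℝ) else 0) * (if f s' t' then (1 : ℝ) else 0) *
            (w s * w s' * v t * v t') := by
    refine Finset.sum_congr rfl fun s _ => Finset.sum_congr rfl fun s' _ =>
      Finset.sum_congr rfl fun t _ => Finset.sum_congr rfl fun t' _ => ?_
    by_cases ha : f s t
    · by_cases hb : f s' t
      · by_cases hc : f s t'
        · by_cases hd : f s' t'
          · simp [ha, hb, hc, hd]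
          · simp [hd]
        · simp [hc]
      · simp [hb]
    · simp [ha]
  rw [h1, h2]
  exact h

/-- the abstract form of the four corner argument: any weights -/
private lemma fc_abs {T : Type} [Add T] (w : T → ℝ) (hw : ∀ a, 0 ≤ w a)
    (hwm : ∀ a b, w (a + b) = w a * w b) (I1 I2 : T → Prop) (Z1 Z2 : ℝ) (hZ1 : 0 < Z1)
    (hZ2 : 0 < Z2)
    (hzs1 : ∀ Y : Finset T, (∀ m ∈ Y, I1 m) → ∑ m ∈ Y, w m ≤ Z1)
    (hzs2 : ∀ Y : Finset T, (∀ m ∈ Y, I2 m) → ∑ m ∈ Y, w m ≤ Z2)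
    (A : Set T) (ε1 δ : ℝ) (hε1 : 0 ≤ ε1) (hδ : 0 ≤ δ) (hεδ : 3 * ε1 ≤ δ ^ 4)
    (S1 S2 : Set T → Prop)
    (hS1 : ∀ D, S1 D → ∀ Y : Finset T, (∀ m ∈ Y, I1 m) → (∀ m ∈ Y, m ∈ D) →
      ∑ m ∈ Y, w m ≤ ε1 * Z1)
    (hS2 : ∀ D, S2 D → ∀ Y : Finset T, (∀ m ∈ Y, I2 m) → (∀ m ∈ Y, m ∈ D) →
      ∑ m ∈ Y, w m ≤ ε1 * Z2)
    (BA BB : T → T → Set T) (BC : T → T → T → Set T)
    (hA : ∀ s s', S2 (BA s s')) (hB : ∀ t t', S1 (BB t t')) (hC : ∀ s t t', S1 (BC s t t'))
    (hcov : ∀ s s' t t' : T, I1 s → I1 s' → I2 t → I2 t' →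
      s + t ∈ A → s' + t ∈ A → s + t' ∈ A → s' + t' ∈ A →
      t ∈ BA s s' ∨ s' ∈ BB t t' ∨ s' ∈ BC s t t')
    (Y : Finset T) (hYA : ∀ m ∈ Y, m ∈ A) (s t : T → T) (hs : ∀ b ∈ Y, I1 (s b))
    (ht : ∀ b ∈ Y, I2 (t b)) (hst : ∀ b ∈ Y, b = s b + t b) :
    ∑ m ∈ Y, w m ≤ δ * (Z1 * Z2) := by
  classical
  set X : Finset T := Y.image s with hX
  set Z : Finset T := Y.image t with hZ
  have hXf : ∀ a ∈ X, I1 a := by
    intro a ha
    obtain ⟨b, hb, rfl⟩ := Finset.mem_image.mp ha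
    exact hs b hb
  have hZf : ∀ a ∈ Z, I2 a := by
    intro a ha
    obtain ⟨b, hb, rfl⟩ := Finset.mem_image.mp ha
    exact ht b hb
  have site1 : ∀ D, S1 D → ∑ b ∈ X, (if b ∈ D then w b else 0) ≤ ε1 * Z1 := by
    intro D hD
    rw [← Finset.sum_filter]
    exact hS1 D hD _ (fun b hb => hXf b (Finset.mem_filter.mp hb).1)
      fun b hb => (Finset.mem_filter.mp hb).2
  have site2 : ∀ D, S2 D → ∑ b ∈ Z, (if b ∈ D then w b else 0) ≤ ε1 * Z2 := by
    intro D hD
    rw [← Finset.sum_filter]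
    exact hS2 D hD _ (fun b hb => hZf b (Finset.mem_filter.mp hb).1)
      fun b hb => (Finset.mem_filter.mp hb).2
  -- step 1
  have step1 : ∑ b ∈ Y, w b ≤
      ∑ x ∈ X, ∑ z ∈ Z, if x + z ∈ A then w x * w z else 0 := by
    rw [← Finset.sum_product' (s := X) (t := Z)
      (f := fun x z => if x + z ∈ A then w x * w z else 0)]
    have hinj : Set.InjOn (fun b => (s b, t b)) (Y : Set T) := by
      intro x hx y hy hxy
      simp only [Prod.mk.injEq] at hxy
      rw [hst x hx, hst y hy, hxy.1, hxy.2]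
    have h3 : ∑ b ∈ Y, w b = ∑ q ∈ Y.image (fun b => (s b, t b)),
        (if q.1 + q.2 ∈ A then w q.1 * w q.2 else 0) := by
      rw [Finset.sum_image hinj]
      apply Finset.sum_congr rfl
      intro b hb
      have h4 := hst b hb
      simp only
      rw [← h4, if_pos (hYA b hb)]
      conv_lhs => rw [h4]
      rw [hwm]
    rw [h3]
    apply Finset.sum_le_sum_of_subset_of_nonneg
    · intro q hq
      obtain ⟨b, hb, rfl⟩ := Finset.mem_image.mp hq
      exact Finset.mem_product.mpr ⟨Finset.mem_image_of_mem s hb, Finset.mem_image_of_mem t hb⟩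
    · intro q _ _
      split_ifs
      · exact mul_nonneg (hw _) (hw _)
      · exact le_rfl
  -- step 2
  have step2 := fc_cs X Z w w (fun a _ => hw a)
    (fun a _ => hw a) (fun x z => x + z ∈ A)
  have hsX : ∑ a ∈ X, w a ≤ Z1 := hzs1 X hXf
  have hsZ : ∑ a ∈ Z, w a ≤ Z2 := hzs2 Z hZf
  have hsX0 : 0 ≤ ∑ a ∈ X, w a := Finset.sum_nonneg fun a _ => hw a
  have hsZ0 : 0 ≤ ∑ a ∈ Z, w a := Finset.sum_nonneg fun a _ => hw a
  -- step 3
  have step3 : ∑ a ∈ X, ∑ a' ∈ X, ∑ b ∈ Z, ∑ b' ∈ Z,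
      (if (a + b ∈ A ∧ a' + b ∈ A ∧ a + b' ∈ A ∧ a' + b' ∈ A) then
        w a * w a' * w b * w b' else 0) ≤
      3 * ε1 * (Z1 ^ 2 * Z2 ^ 2) := by
    have e1 : ∑ a ∈ X, ∑ a' ∈ X, ∑ b ∈ Z, ∑ b' ∈ Z,
      (if (a + b ∈ A ∧ a' + b ∈ A ∧ a + b' ∈ A ∧ a' + b' ∈ A) then
        w a * w a' * w b * w b' else 0) ≤
      ∑ a ∈ X, ∑ a' ∈ X, ∑ b ∈ Z, ∑ b' ∈ Z,
        (w a * w a' * (if b ∈ BA a a' then w b else 0) * w b' +
          w a * (if a' ∈ BB b b' then w a' else 0) * w b * w b' +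
          w a * (if a' ∈ BC a b b' then w a' else 0) * w b * w b') := by
      apply Finset.sum_le_sum; intro a ha
      apply Finset.sum_le_sum; intro a' ha'
      apply Finset.sum_le_sum; intro b hb
      apply Finset.sum_le_sum; intro b' hb'
      have ha0 := hw a
      have ha0' := hw a'
      have hb0 := hw b
      have hb0' := hw b'
      by_cases hall : a + b ∈ A ∧ a' + b ∈ A ∧ a + b' ∈ A ∧ a' + b' ∈ A
      · rw [if_pos hall]
        have hA0 : 0 ≤ w a * w a' * (if b ∈ BA a a' then w b else 0) *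
            w b' := by split_ifs <;> positivity
        have hB0 : 0 ≤ w a * (if a' ∈ BB b b' then w a' else 0) * w b *
            w b' := by split_ifs <;> positivity
        have hC0 : 0 ≤ w a * (if a' ∈ BC a b b' then w a' else 0) * w b *
            w b' := by split_ifs <;> positivity
        rcases hcov a a' b b' (hXf a ha) (hXf a' ha') (hZf b hb) (hZf b' hb') hall.1 hall.2.1
          hall.2.2.1 hall.2.2.2 with h | h | h
        · have : w a * w a' * (if b ∈ BA a a' then w b else 0) * w b' =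
            w a * w a' * w b * w b' := by rw [if_pos h]
          linarith
        · have : w a * (if a' ∈ BB b b' then w a' else 0) * w b *
            w b' = w a * w a' * w b * w b' := by rw [if_pos h]
          linarith
        · have : w a * (if a' ∈ BC a b b' then w a' else 0) * w b *
            w b' = w a * w a' * w b * w b' := by rw [if_pos h]
          linarith
      · rw [if_neg hall]
        have hA0 : 0 ≤ w a * w a' * (if b ∈ BA a a' then w b else 0) *
            w b' := by split_ifs <;> positivity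
        have hB0 : 0 ≤ w a * (if a' ∈ BB b b' then w a' else 0) * w b *
            w b' := by split_ifs <;> positivity
        have hC0 : 0 ≤ w a * (if a' ∈ BC a b b' then w a' else 0) * w b *
            w b' := by split_ifs <;> positivity
        linarith
    have eA : ∑ a ∈ X, ∑ a' ∈ X, ∑ b ∈ Z, ∑ b' ∈ Z,
        (w a * w a' * (if b ∈ BA a a' then w b else 0) * w b') ≤
        ε1 * (Z1 ^ 2 * Z2 ^ 2) := by
      calc _ = ∑ a ∈ X, ∑ a' ∈ X, (w a * w a' *
            ((∑ b ∈ Z, if b ∈ BA a a' then w b else 0) * ∑ b' ∈ Z, w b')) := by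
            apply Finset.sum_congr rfl; intro a _
            apply Finset.sum_congr rfl; intro a' _
            rw [Finset.sum_mul_sum, Finset.mul_sum]
            apply Finset.sum_congr rfl; intro b _
            rw [Finset.mul_sum]
            apply Finset.sum_congr rfl; intro b' _
            ring
        _ ≤ ∑ a ∈ X, ∑ a' ∈ X, (w a * w a' * ((ε1 * Z2) * Z2)) := by
            apply Finset.sum_le_sum; intro a _
            apply Finset.sum_le_sum; intro a' _
            apply mul_le_mul_of_nonneg_left _ (mul_nonneg (hw _) (hw _))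
            apply mul_le_mul (site2 _ (hA a a')) hsZ hsZ0 (by positivity)
        _ = ((∑ a ∈ X, w a) * (∑ a ∈ X, w a)) * ((ε1 * Z2) * Z2) := by
            rw [Finset.sum_mul_sum, Finset.sum_mul]
            apply Finset.sum_congr rfl; intro a _
            rw [Finset.sum_mul]
        _ ≤ (Z1 * Z1) * ((ε1 * Z2) * Z2) := by
            apply mul_le_mul_of_nonneg_right _ (by positivity)
            exact mul_le_mul hsX hsX hsX0 hZ1.le
        _ = _ := by ring
    have eB : ∀ B : T → T → T → Set T, (∀ a b b', S1 (B a b b')) →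
        ∑ a ∈ X, ∑ a' ∈ X, ∑ b ∈ Z, ∑ b' ∈ Z,
        (w a * (if a' ∈ B a b b' then w a' else 0) * w b * w b') ≤
        ε1 * (Z1 ^ 2 * Z2 ^ 2) := by
      intro B hB'
      calc _ = ∑ a ∈ X, ∑ b ∈ Z, ∑ b' ∈ Z, (w a * w b * w b' *
            (∑ a' ∈ X, if a' ∈ B a b b' then w a' else 0)) := by
            apply Finset.sum_congr rfl; intro a _
            rw [Finset.sum_comm]
            apply Finset.sum_congr rfl; intro b _
            rw [Finset.sum_comm]
            apply Finset.sum_congr rfl; intro b' _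
            rw [Finset.mul_sum]
            apply Finset.sum_congr rfl; intro a' _
            ring
        _ ≤ ∑ a ∈ X, ∑ b ∈ Z, ∑ b' ∈ Z, (w a * w b * w b' *
            (ε1 * Z1)) := by
            apply Finset.sum_le_sum; intro a _
            apply Finset.sum_le_sum; intro b _
            apply Finset.sum_le_sum; intro b' _
            apply mul_le_mul_of_nonneg_left _
              (mul_nonneg (mul_nonneg (hw _) (hw _)) (hw _))
            exact site1 _ (hB' a b b')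
        _ = ((∑ a ∈ X, w a) * ((∑ b ∈ Z, w b) * (∑ b' ∈ Z, w b'))) *
            (ε1 * Z1) := by
            rw [Finset.sum_mul_sum, Finset.sum_mul, Finset.sum_mul]
            apply Finset.sum_congr rfl; intro a _
            rw [Finset.mul_sum, Finset.sum_mul]
            apply Finset.sum_congr rfl; intro b _
            rw [Finset.mul_sum, Finset.sum_mul]
            apply Finset.sum_congr rfl; intro b' _
            ring
        _ ≤ (Z1 * (Z2 * Z2)) * (ε1 * Z1) := by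
            apply mul_le_mul_of_nonneg_right _ (by positivity)
            exact mul_le_mul hsX (mul_le_mul hsZ hsZ hsZ0 hZ2.le) (mul_nonneg hsZ0 hsZ0) hZ1.le
        _ = _ := by ring
    refine e1.trans ?_
    simp only [Finset.sum_add_distrib]
    have f1 := eB (fun _ b b' => BB b b') (fun _ b b' => hB b b')
    have f2 := eB BC hC
    linarith
  -- step 4
  have step4 : (∑ x ∈ X, ∑ z ∈ Z, if x + z ∈ A then w x * w z else 0) ^ 4 ≤
      (δ * (Z1 * Z2)) ^ 4 := by
    refine step2.trans ?_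
    calc _ ≤ (Z1 ^ 2 * Z2 ^ 2) * (3 * ε1 * (Z1 ^ 2 * Z2 ^ 2)) := by
          apply mul_le_mul _ step3 _ (by positivity)
          · apply mul_le_mul (pow_le_pow_left₀ hsX0 hsX 2) (pow_le_pow_left₀ hsZ0 hsZ 2)
              (by positivity) (by positivity)
          · apply Finset.sum_nonneg; intro a _
            apply Finset.sum_nonneg; intro a' _
            apply Finset.sum_nonneg; intro b _
            apply Finset.sum_nonneg; intro b' _
            split_ifs
            · have := hw a; have := hw a'; have := hw b; have := hw b'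
              positivity
            · exact le_rfl
      _ ≤ (Z1 ^ 2 * Z2 ^ 2) * (δ ^ 4 * (Z1 ^ 2 * Z2 ^ 2)) := by
          apply mul_le_mul_of_nonneg_left _ (by positivity)
          exact mul_le_mul_of_nonneg_right hεδ (by positivity)
      _ = _ := by ring
  have step5 := le_of_pow_le_pow_left₀ (by norm_num : (4 : ℕ) ≠ 0) (by positivity) step4
  exact step1.trans step5

private lemma fc_pos {ι : Type} {q : ι → ℕ} (hq : ∀ i, 2 ≤ q i) (P : Finset ι) :
    0 < ZP q P := by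
  unfold ZP
  refine Finset.prod_pos fun i _ => ?_
  have h2 : (2 : ℝ) ≤ q i := by exact_mod_cast hq i
  have h3 : (q i : ℝ)⁻¹ ≤ 2⁻¹ := inv_anti₀ (by norm_num) h2
  have : 0 < 1 - (q i : ℝ)⁻¹ := by linarith [h3, (by norm_num : (2 : ℝ)⁻¹ < 1)]
  positivity

private lemma fc_add {ι : Type} (q : ι → ℕ) (s t : ι →₀ ℕ) :
    nm q (s + t) = nm q s * nm q t := by
  classical
  unfold nm
  exact Finsupp.prod_add_index' (fun i => pow_zero _) fun i a b => pow_add _ a b

/-- piece FC -/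
theorem p_fc (hzs : S_zs) : S_fc := by
  intro ι _ q hq P1 P2 hd A ε1 δ hε1 hδ hεδ BA BB BC hA hB hC hcov Y hY hYA
  have hZ1 := fc_pos hq P1
  have hZ2 := fc_pos hq P2
  have hU : ZP q (P1 ∪ P2) = ZP q P1 * ZP q P2 := Finset.prod_union hd
  rw [hU]
  refine fc_abs (fun m => (nm q m : ℝ)⁻¹) (fun a => by positivity)
    (fun a b => ?_) (fun m => m.support ⊆ P1) (fun m => m.support ⊆ P2) (ZP q P1) (ZP q P2)
    hZ1 hZ2 (hzs ι q hq P1) (hzs ι q hq P2) A ε1 δ hε1 hδ hεδ
    (fun D => Sm q P1 D ε1) (fun D => Sm q P2 D ε1) (fun D hD => hD) (fun D hD => hD)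
    BA BB BC hA hB hC hcov Y hYA (fun m => m.filter (· ∈ P1)) (fun m => m.filter (· ∉ P1))
    ?_ ?_ ?_
  · rw [fc_add]
    push_cast
    rw [mul_inv]
  · intro b _
    change (b.filter (· ∈ P1)).support ⊆ P1
    rw [Finsupp.support_filter]
    intro i hi
    exact (Finset.mem_filter.mp hi).2
  · intro b hb
    change (b.filter (· ∉ P1)).support ⊆ P2
    rw [Finsupp.support_filter]
    intro i hi
    obtain ⟨h3, h4⟩ := Finset.mem_filter.mp hi
    exact (Finset.mem_union.mp (hY b hb h3)).resolve_left h4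
  · intro b _
    exact (Finsupp.filter_add_filter_not b (· ∈ P1)).symm

end Pool.Agent.Lib.MP_c82530_nt.AH
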