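import Pool.Agent.Lib.MP_c82530_nt.AH.Stm

set_option autoImplicit false

/-!
Piece IND: the induction step for densities.
-/

namespace Pool.Agent.Lib.MP_c82530_nt.AH

open Set Pool.Agent.Lib.MP_c82530_nt Pool.Agent.Lib.MP_c82530_nt.AA
  Pool.Agent.Lib.MP_c82530_nt.AG Module Filter Topology

private theorem ind_snoc {ι : ℕ → Type} (r : ℕ) (S : ∀ j, Finset (ι j →₀ ℕ))
    (g : (∀ i : Fin (r + 1), ι i →₀ ℕ) → ℝ) :
    ∑ b ∈ Fintype.piFinset (fun i : Fin (r + 1) => S i), g b =
      ∑ b' ∈ Fintype.piFinset (fun i : Fin r => S i),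
        ∑ b ∈ S r, g (Fin.snoc (α := fun i : Fin (r + 1) => ι i →₀ ℕ) b' b) := by
  classical
  rw [← Finset.sum_product']
  refine Finset.sum_bij' (fun b _ => ((fun i : Fin r => b i.castSucc), b (Fin.last r)))
    (fun p _ => Fin.snoc (α := fun i : Fin (r + 1) => ι i →₀ ℕ) p.1 p.2) ?_ ?_ ?_ ?_ ?_
  · intro b hb
    rw [Fintype.mem_piFinset] at hb
    rw [Finset.mem_product, Fintype.mem_piFinset]
    exact ⟨fun i => hb i.castSucc, hb (Fin.last r)⟩
  · intro p hp
    rw [Finset.mem_product, Fintype.mem_piFinset] at hp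
    rw [Fintype.mem_piFinset]
    intro i
    refine Fin.lastCases ?_ (fun j => ?_) i
    · rw [Fin.snoc_last]
      exact hp.2
    · rw [Fin.snoc_castSucc]
      exact hp.1 j
  · intro b _
    exact Fin.snoc_init_self b
  · intro p _
    refine Prod.ext ?_ ?_
    · exact Fin.init_snoc (α := fun i : Fin (r + 1) => ι i →₀ ℕ) _ _
    · exact Fin.snoc_last (α := fun i : Fin (r + 1) => ι i →₀ ℕ) _ _
  · intro b _
    exact congrArg g (Fin.snoc_init_self b).symm

private theorem ind_nonneg {ι : ℕ → Type} (q : ∀ j, ι j → ℕ) (L : ∀ j, ℕ → Finset (ι j →₀ ℕ))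
    {r : ℕ} (D : Set (∀ i : Fin r, ι i →₀ ℕ)) (x : ℕ) : 0 ≤ WtF q L D x := by
  unfold WtF
  refine Finset.sum_nonneg fun b _ => ?_
  refine Set.indicator_nonneg (fun b _ => ?_) b
  exact Finset.prod_nonneg fun i _ => by positivity

/-- the total weight -/
private noncomputable def indH {ι : Type} (q : ι → ℕ) (L : ℕ → Finset (ι →₀ ℕ)) (x : ℕ) : ℝ :=
  ∑ m ∈ L x, (nm q m : ℝ)⁻¹

private theorem indH_nonneg {ι : Type} (q : ι → ℕ) (L : ℕ → Finset (ι →₀ ℕ)) (x : ℕ) :
    0 ≤ indH q L x := Finset.sum_nonneg fun b _ => by positivity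

private theorem indH_le {ι : Type} (q : ι → ℕ) (L : ℕ → Finset (ι →₀ ℕ)) (h : Mt0 q L) :
    ∃ (C : ℝ) (x₀ : ℕ), 0 < C ∧ ∀ x, x₀ ≤ x → indH q L x ≤ C * Real.log x := by
  obtain ⟨C, hC, h⟩ := h
  obtain ⟨x₀, hx₀⟩ := h ∅
  refine ⟨C, x₀, hC, fun x hx => ?_⟩
  have h1 := hx₀ x hx
  have h2 : AG.ZP q ∅ = 1 := by
    unfold AG.ZP
    exact Finset.prod_empty
  rw [h2, div_one] at h1
  refine le_trans (le_of_eq ?_) h1
  unfold indH Wt
  refine Finset.sum_congr rfl fun m _ => ?_
  rw [Set.indicator_of_mem]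
  exact Finset.disjoint_empty_right _

private theorem ind_pow {ι : ℕ → Type} (q : ∀ j, ι j → ℕ) (L : ∀ j, ℕ → Finset (ι j →₀ ℕ))
    (r x : ℕ) :
    ∑ b ∈ Fintype.piFinset (fun i : Fin r => L i x), ∏ i : Fin r, (nm (q i) (b i) : ℝ)⁻¹ =
      ∏ i : Fin r, indH (q i) (L i) x := by
  unfold indH
  exact (Finset.prod_univ_sum (fun i : Fin r => L i x)
    (fun (i : Fin r) (b : ι i →₀ ℕ) => (nm (q i) b : ℝ)⁻¹)).symm

theorem p_ind : S_ind := by
  classical
  intro ι q L _ _ hM r D hD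
  choose C x₁ hC hx₁ using fun j => indH_le (q j) (L j) (hM j)
  obtain ⟨K, hK⟩ : ∃ K : ℝ, K = ∏ i : Fin r, C i := ⟨_, rfl⟩
  have hK0 : 0 < K := by
    rw [hK]
    exact Finset.prod_pos fun i _ => hC i
  unfold LNF
  rw [Metric.tendsto_atTop]
  intro δ hδ
  obtain ⟨D', x₀, hD', hx₀⟩ := hD (δ / (4 * K)) (by positivity)
  unfold LNF at hD'
  rw [Metric.tendsto_atTop] at hD'
  obtain ⟨x₂, hx₂⟩ := hD' (δ / (4 * C r)) (div_pos hδ (mul_pos (by norm_num) (hC r)))
  refine ⟨max (max (max x₀ x₂) 4) ((Finset.range (r + 1)).sup x₁), fun x hx => ?_⟩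
  have hx0 : x₀ ≤ x := le_trans (le_trans (le_trans (le_max_left _ _) (le_max_left _ _))
    (le_max_left _ _)) hx
  have hx2 : x₂ ≤ x := le_trans (le_trans (le_trans (le_max_right _ _) (le_max_left _ _))
    (le_max_left _ _)) hx
  have hx4 : 4 ≤ x := le_trans (le_trans (le_max_right _ _) (le_max_left _ _)) hx
  have hx1 : ∀ j, j < r + 1 → indH (q j) (L j) x ≤ C j * Real.log x := fun j hj =>
    hx₁ j x (le_trans (Finset.le_sup (f := x₁) (Finset.mem_range.2 hj))
      (le_trans (le_max_right _ _) hx))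
  have hlog : 0 < Real.log x := Real.log_pos (by
    have : (4 : ℝ) ≤ x := by exact_mod_cast hx4
    linarith)
  have hD'x := hx₂ x hx2
  rw [Real.dist_eq, sub_zero, abs_of_nonneg (div_nonneg (ind_nonneg _ _ _ _) (by positivity)),
    div_lt_iff₀ (by positivity)] at hD'x
  rw [Real.dist_eq, sub_zero, abs_of_nonneg (div_nonneg (ind_nonneg _ _ _ _) (by positivity)),
    div_lt_iff₀ (by positivity)]
  have hprod : ∀ b' : (∀ i : Fin r, ι i →₀ ℕ), (0 : ℝ) ≤ ∏ i : Fin r, (nm (q i) (b' i) : ℝ)⁻¹ :=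
    fun b' => Finset.prod_nonneg fun i _ => by positivity
  have hmain : WtF q L D x ≤ δ / (4 * K) * Real.log x * (∏ i : Fin r, indH (q i) (L i) x) +
      indH (q r) (L r) x * WtF q L D' x := by
    have h1 : WtF q L D x = ∑ b' ∈ Fintype.piFinset (fun i : Fin r => L i x),
        (∏ i : Fin r, (nm (q i) (b' i) : ℝ)⁻¹) * Wt (q r) {b : ι r →₀ ℕ |
          (Fin.snoc (α := fun i : Fin (r + 1) => ι i →₀ ℕ) b' b) ∈ D} (L r x) := by
      unfold WtF
      rw [ind_snoc r (fun j => L j x)]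
      refine Finset.sum_congr rfl fun b' _ => ?_
      unfold Wt
      rw [Finset.mul_sum]
      refine Finset.sum_congr rfl fun b _ => ?_
      by_cases hb : (Fin.snoc (α := fun i : Fin (r + 1) => ι i →₀ ℕ) b' b) ∈ D
      · rw [Set.indicator_of_mem hb,
          Set.indicator_of_mem (show b ∈ {b : ι r →₀ ℕ |
            (Fin.snoc (α := fun i : Fin (r + 1) => ι i →₀ ℕ) b' b) ∈ D} from hb),
          Fin.prod_univ_castSucc]
        congr 1
        · refine Finset.prod_congr rfl fun i _ => ?_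
          rw [Fin.snoc_castSucc (α := fun i : Fin (r + 1) => ι i →₀ ℕ)]
          rfl
        · rw [Fin.snoc_last (α := fun i : Fin (r + 1) => ι i →₀ ℕ)]
          rfl
      · rw [Set.indicator_of_notMem hb, Set.indicator_of_notMem
          (show b ∉ {b : ι r →₀ ℕ |
            (Fin.snoc (α := fun i : Fin (r + 1) => ι i →₀ ℕ) b' b) ∈ D} from hb), mul_zero]
    have h2 : WtF q L D' x = ∑ b' ∈ Fintype.piFinset (fun i : Fin r => L i x),
        (∏ i : Fin r, (nm (q i) (b' i) : ℝ)⁻¹) * (if b' ∈ D' then 1 else 0) := by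
      unfold WtF
      refine Finset.sum_congr rfl fun b' _ => ?_
      by_cases hb : b' ∈ D'
      · rw [Set.indicator_of_mem hb, if_pos hb, mul_one]
      · rw [Set.indicator_of_notMem hb, if_neg hb, mul_zero]
    rw [h1, h2, ← ind_pow q L r x, Finset.mul_sum, Finset.mul_sum, ← Finset.sum_add_distrib]
    refine Finset.sum_le_sum fun b' _ => ?_
    by_cases hb : b' ∈ D'
    · rw [if_pos hb, mul_one]
      have h3 : Wt (q r) {b : ι r →₀ ℕ |
          (Fin.snoc (α := fun i : Fin (r + 1) => ι i →₀ ℕ) b' b) ∈ D} (L r x) ≤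
            indH (q r) (L r) x := by
        unfold Wt indH
        refine Finset.sum_le_sum fun b _ => ?_
        exact Set.indicator_le_self' (fun _ _ => by positivity) b
      have h4 := mul_le_mul_of_nonneg_left h3 (hprod b')
      have h5 : 0 ≤ δ / (4 * K) * Real.log x * ∏ i : Fin r, (nm (q i) (b' i) : ℝ)⁻¹ :=
        mul_nonneg (by positivity) (hprod b')
      linarith
    · rw [if_neg hb, mul_zero, mul_zero, add_zero]
      have h3 := mul_le_mul_of_nonneg_left (hx₀ x hx0 b' hb) (hprod b')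
      linarith
  have h6 : ∏ i : Fin r, indH (q i) (L i) x ≤ K * Real.log x ^ r := by
    have h7 : ∏ i : Fin r, indH (q i) (L i) x ≤ ∏ i : Fin r, (C i * Real.log x) :=
      Finset.prod_le_prod (fun i _ => indH_nonneg _ _ _)
        (fun i _ => hx1 i (Nat.lt_succ_of_lt i.2))
    rw [Finset.prod_mul_distrib, Finset.prod_const, Finset.card_univ, Fintype.card_fin,
      ← hK] at h7
    exact h7
  have h7 : δ / (4 * K) * Real.log x * (∏ i : Fin r, indH (q i) (L i) x) ≤
      δ / 4 * Real.log x ^ (r + 1) := by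
    calc δ / (4 * K) * Real.log x * (∏ i : Fin r, indH (q i) (L i) x)
        ≤ δ / (4 * K) * Real.log x * (K * Real.log x ^ r) :=
          mul_le_mul_of_nonneg_left h6 (by positivity)
      _ = δ / 4 * Real.log x ^ (r + 1) := by
          rw [pow_succ]
          field_simp
  have hCr := hC r
  have h8 : indH (q r) (L r) x * WtF q L D' x ≤ δ / 4 * Real.log x ^ (r + 1) := by
    calc indH (q r) (L r) x * WtF q L D' x
        ≤ (C r * Real.log x) * (δ / (4 * C r) * Real.log x ^ r) :=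
          mul_le_mul (hx1 r (Nat.lt_succ_self r)) hD'x.le (ind_nonneg _ _ _ _) (by positivity)
      _ = δ / 4 * Real.log x ^ (r + 1) := by
          rw [pow_succ]
          field_simp
  have h9 : 0 < δ * Real.log x ^ (r + 1) := by positivity
  linarith

end Pool.Agent.Lib.MP_c82530_nt.AH
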