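import Mathlib
import Pool.Agent.Lib.MP_c82530_nt.AH.Stm

set_option autoImplicit false

/-!
# Piece PROD: the weight of a product set
-/

namespace Pool.Agent.Lib.MP_c82530_nt.AH

open Set Pool.Agent.Lib.MP_c82530_nt Pool.Agent.Lib.MP_c82530_nt.AA
  Pool.Agent.Lib.MP_c82530_nt.AG Module Filter Topology

theorem p_prod : S_prod := by
  classical
  intro ι q L r A x
  unfold WtF Wt
  rw [Finset.prod_univ_sum]
  refine Finset.sum_congr rfl fun b _ => ?_
  by_cases h : ∀ i : Fin r, b i ∈ A i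
  · rw [Set.indicator_of_mem (show b ∈ {b : ∀ i : Fin r, ι i →₀ ℕ | ∀ i : Fin r, b i ∈ A i} from h)]
    refine Finset.prod_congr rfl fun i _ => ?_
    rw [Set.indicator_of_mem (h i)]
  · rw [Set.indicator_of_notMem
      (show b ∉ {b : ∀ i : Fin r, ι i →₀ ℕ | ∀ i : Fin r, b i ∈ A i} from h)]
    rw [not_forall] at h
    obtain ⟨i, hi⟩ := h
    exact (Finset.prod_eq_zero (Finset.mem_univ i) (Set.indicator_of_notMem hi _)).symm

end Pool.Agent.Lib.MP_c82530_nt.AH
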