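import Mathlib
import Pool.Agent.Lib.MP_c82530_nt.AH.Stm

set_option autoImplicit false

namespace Pool.Agent.Lib.MP_c82530_nt.AH

open Set Pool.Agent.Lib.MP_c82530_nt

private lemma shf_gen {ι F A : Type*} [Field F] [Field A] [Algebra F A] (x : ι → A) (c : ι → F)
    (hx : AlgebraicIndependent F x) :
    AlgebraicIndependent F (fun j => x j + algebraMap F A (c j)) := by
  have hcomp : (MvPolynomial.aeval (fun j => x j + algebraMap F A (c j)) :
      MvPolynomial ι F →ₐ[F] A) =
      (MvPolynomial.aeval x).comp
        (MvPolynomial.aeval (fun j => MvPolynomial.X j + MvPolynomial.C (c j)) :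
          MvPolynomial ι F →ₐ[F] MvPolynomial ι F) := by
    apply MvPolynomial.algHom_ext
    intro j
    simp
  have hinv : Function.LeftInverse
      (MvPolynomial.aeval (fun j => MvPolynomial.X j - MvPolynomial.C (c j)) :
          MvPolynomial ι F →ₐ[F] MvPolynomial ι F)
      (MvPolynomial.aeval (fun j => MvPolynomial.X j + MvPolynomial.C (c j)) :
          MvPolynomial ι F →ₐ[F] MvPolynomial ι F) := by
    intro p
    have h : ((MvPolynomial.aeval (fun j => MvPolynomial.X j - MvPolynomial.C (c j)) :
          MvPolynomial ι F →ₐ[F] MvPolynomial ι F).comp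
        (MvPolynomial.aeval (fun j => MvPolynomial.X j + MvPolynomial.C (c j)) :
          MvPolynomial ι F →ₐ[F] MvPolynomial ι F)) = AlgHom.id F (MvPolynomial ι F) := by
      apply MvPolynomial.algHom_ext
      intro j
      simp
    exact DFunLike.congr_fun h p
  have h2 : Function.Injective (MvPolynomial.aeval (fun j => x j + algebraMap F A (c j)) :
      MvPolynomial ι F →ₐ[F] A) := by
    rw [hcomp, AlgHom.coe_comp]
    exact Function.Injective.comp hx hinv.injective
  exact h2

/-- piece SHF -/
theorem p_shf : S_shf := by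
  intro s r x c hc hx
  exact shf_gen x (fun j => (⟨c j, mem_KL.mpr (hc j)⟩ : KL s)) hx

end Pool.Agent.Lib.MP_c82530_nt.AH
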